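import Pool.Agent.TH101.RG.Cov

set_option autoImplicit false
set_option maxHeartbeats 4000000

/-!
# Rankin's covering around prescribed positions: survivors

Author: helper175 (adaptation of `Pool.Agent.TH101.RG.coverK` of the starting files).
-/

namespace Pool.Agent.Y175.RC

open Finset Filter Pool.Agent.H398R2.RK
open Pool.Agent.H378R2
open Pool.Agent.TH101.RG (V0 vfacts shift_exK rsurvK sum_union_le' sum_biUnion_le')

open scoped Classical

/-- Rankin's function -/
noncomputable def rk (X : ℝ) : ℝ :=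
  Real.log X * Real.log (Real.log X) * Real.log (Real.log (Real.log (Real.log X))) /
    (Real.log (Real.log (Real.log X))) ^ 2

/-- the covering by the primes up to `yy X / 2` leaves few positions -/
theorem cov_half (K : ℕ) (c₃ : ℝ) (hc₃ : 0 < c₃) : ∃ c : ℝ, 0 < c ∧ c ≤ 1 ∧
    ∀ᶠ X : ℝ in atTop, ∀ (ps : ℕ) (S : Finset ℕ), GoodP 2 ps → GoodS X S →
    ∀ (t : Fin K → ℕ) (u : ℕ → ℕ), (∀ p, p.Prime → p ≤ yy X → ∀ j, ¬ p ∣ u p + t j) →
    ∃ (ρ : ℕ → ℕ) (U0 : Finset ℕ),
      (U0.card : ℝ) ≤ c₃ * (Real.log X / Real.log (Real.log X)) ∧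
      (∀ m ∈ U0, (m : ℝ) ≤ c * rk X ∧ ∀ j, m ≠ t j) ∧
      (∀ p ∈ PW X S ps, p ≤ yy X / 2 → ∀ j, ¬ p ∣ ρ p + t j) ∧
      ∀ m : ℕ, (m : ℝ) ≤ c * rk X → (∀ j, m ≠ t j) → m ∈ U0 ∨
        ∃ p ∈ PW X S ps, p ≤ yy X / 2 ∧ p ∣ ρ p + m := by
  obtain ⟨C, hC, y₀, hrs⟩ := rsurvK K (2 + 3 * K * K) (8 + 3 * K * K) (by positivity)
  obtain ⟨y₂, hsh⟩ := shift_exK K
  set c₂ : ℝ := min (1 / 16000) (c₃ / (8 * C)) with hc₂
  have hc₂0 : 0 < c₂ := lt_min (by norm_num) (by positivity)
  have hc₂1 : c₂ ≤ 1 / 16000 := min_le_left _ _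
  have hc₂2 : c₂ ≤ c₃ / (8 * C) := min_le_right _ _
  obtain ⟨y₃, hv⟩ := eventually_atTop.1 vfacts
  refine ⟨c₂ / 4, by positivity, by linarith, ?_⟩
  have t1 := Real.tendsto_log_atTop
  have t2 : Tendsto (fun y : ℝ => Real.log (Real.log y)) atTop atTop := t1.comp t1
  have t3 : Tendsto (fun y : ℝ => Real.log (Real.log (Real.log y))) atTop atTop := t1.comp t2
  have t4 : Tendsto (fun y : ℝ => Real.log (Real.log (Real.log (Real.log y)))) atTop atTop := t1.comp t3
  have hcA := ev_log_le (Real.sqrt (c₂ / 10)) (Real.sqrt_pos.2 (by positivity))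
  have hcB := ev_log_le 1 one_pos
  filter_upwards [t2.eventually_ge_atTop 100, t1.eventually_ge_atTop (4000 * ((y₀ : ℝ) + 2)),
    t1.eventually_ge_atTop (4000 * ((y₂ : ℝ) + 2)), t1.eventually_ge_atTop (4000 * (|y₃| + 2)),
    t2.eventually_ge_atTop (2 * Real.log 4000), eventually_gt_atTop 0, t2.eventually hcA,
    t3.eventually hcB, t4.eventually_ge_atTop 1, t3.eventually_ge_atTop 1,
    t3.eventually_ge_atTop (2 * Real.log 2), t4.eventually_ge_atTop (2 * Real.log 2),
    t1.eventually_ge_atTop 4000] with X e1 e2 e3 e4 e5 hX0 eA eB eD eB1 eB2 eD2 eT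
  intro ps S hps hS t u hu
  set T := Real.log X with hT
  have hT0 : 0 < T := by linarith
  set A := Real.log T with hA
  set B := Real.log A with hB
  set D' := Real.log B with hD
  have hrk : rk X = T * A * D' / B ^ 2 := rfl
  have hA0' : 0 < A := by linarith
  have hB0 : 0 < B := by linarith
  have hD0 : 0 < D' := by linarith
  have hBA : B ^ 2 ≤ c₂ / 10 * A := by
    have h1 : B ^ 2 ≤ (Real.sqrt (c₂ / 10) * Real.sqrt A) ^ 2 := by
      apply pow_le_pow_left₀ hB0.le eA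
    rw [mul_pow, Real.sq_sqrt (by positivity), Real.sq_sqrt hA0'.le] at h1
    exact h1
  have hDB : D' ≤ B := by
    have h1 : D' ≤ 1 * Real.sqrt B := eB
    have h2 : Real.sqrt B ≤ B := by
      rw [Real.sqrt_le_left hB0.le]
      nlinarith
    linarith
  -- y
  set y := yy X / 2 with hy
  have hyyT : (yy X : ℝ) ≤ T / 1000 := Nat.floor_le (by positivity)
  have hyyT2 : T / 1000 < (yy X : ℝ) + 1 := Nat.lt_floor_add_one _
  have hy2 : 2 * y ≤ yy X := Nat.mul_div_le _ _
  have hy3 : yy X ≤ 2 * y + 1 := by omega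
  have hy2r : 2 * (y : ℝ) ≤ yy X := by exact_mod_cast hy2
  have hy3r : (yy X : ℝ) ≤ 2 * y + 1 := by exact_mod_cast hy3
  have hyT : (y : ℝ) ≤ T / 2000 := by linarith
  have hyT2 : T / 4000 ≤ y := by linarith
  have hyy0 : y₀ ≤ y := by
    have : (y₀ : ℝ) ≤ y := by linarith
    exact_mod_cast this
  have hyy2 : y₂ ≤ y := by
    have : (y₂ : ℝ) ≤ y := by linarith
    exact_mod_cast this
  have hyy3 : y₃ ≤ y := by
    have := le_abs_self y₃
    linarith
  obtain ⟨hv1, hv2, hv3⟩ := hv y hyy3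
  have hy0 : (0 : ℝ) < y := by linarith
  have hly1 : Real.log y ≤ A := by
    rw [hA]; apply Real.log_le_log hy0; linarith
  have hly2 : A / 2 ≤ Real.log y := by
    have h1 : Real.log (T / 4000) ≤ Real.log y := Real.log_le_log (by positivity) hyT2
    rw [Real.log_div hT0.ne' (by norm_num)] at h1
    linarith
  have hly0 : 0 < Real.log y := by linarith
  have hl2y1 : Real.log (Real.log y) ≤ B := Real.log_le_log hly0 hly1
  have hl2y2 : B / 2 ≤ Real.log (Real.log y) := by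
    have h1 : Real.log (A / 2) ≤ Real.log (Real.log y) := Real.log_le_log (by positivity) hly2
    rw [Real.log_div hA0'.ne' (by norm_num)] at h1
    linarith
  have hl2y0 : 0 < Real.log (Real.log y) := by linarith
  have hl3y2 : D' / 2 ≤ Real.log (Real.log (Real.log y)) := by
    have h1 : Real.log (B / 2) ≤ Real.log (Real.log (Real.log y)) := Real.log_le_log (by positivity) hl2y2
    rw [Real.log_div hB0.ne' (by norm_num)] at h1
    linarith
  -- H
  set H : ℕ := ⌊c₂ * rk X⌋₊ with hH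
  have hff0 : 0 ≤ c₂ * rk X := by rw [hrk]; positivity
  have hHle : (H : ℝ) ≤ c₂ * rk X := Nat.floor_le hff0
  have hT1 : 10 * T ≤ c₂ * rk X := by
    rw [hrk, mul_div_assoc', le_div_iff₀ (by positivity)]
    have h1 : 10 * T * B ^ 2 ≤ 10 * T * (c₂ / 10 * A) := by gcongr
    have h2 : T * (c₂ * A) ≤ T * (c₂ * A) * D' := by
      have : 0 ≤ T * (c₂ * A) := by positivity
      nlinarith
    linarith [show c₂ * (T * A * D') = T * (c₂ * A) * D' by ring,
      show 10 * T * (c₂ / 10 * A) = T * (c₂ * A) by ring]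
  have hyH : y ≤ H := by
    rw [hH]
    apply Nat.le_floor
    linarith
  have hHy : (H : ℝ) ≤ y * (Real.log y) ^ 2 := by
    refine hHle.trans ?_
    have h1 : T / 4000 * (A / 2) ^ 2 ≤ y * (Real.log y) ^ 2 := by gcongr
    refine le_trans ?_ h1
    rw [hrk, mul_div_assoc', div_le_iff₀ (by positivity)]
    have h2 : D' ≤ B ^ 2 := by nlinarith
    have hAA : A ≤ A ^ 2 := by nlinarith
    have h3 : c₂ * (T * A * D') ≤ 1 / 16000 * (T * A ^ 2 * B ^ 2) := by gcongr
    linarith [show T / 4000 * (A / 2) ^ 2 * B ^ 2 = 1 / 16000 * (T * A ^ 2 * B ^ 2) by ring]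
  have hHlow : c₂ * rk X < (H : ℝ) + 1 := Nat.lt_floor_add_one _
  obtain ⟨s, hsy, hs12'⟩ := hsh y hyy2 y le_rfl (fun j => -(t j : ℤ))
  have hdv : ∀ (p : ℕ) j, (p : ℤ) ∣ -(t j : ℤ) - s ↔ p ∣ s + t j := by
    intro p j
    rw [show -(t j : ℤ) - s = -((s + t j : ℕ) : ℤ) by push_cast; ring, dvd_neg, Int.natCast_dvd_natCast]
  simp only [hdv] at hs12'
  have hs12 := hs12'
  -- the set F
  set F : Finset ℕ := (Icc 1 y).filter (fun p : ℕ => p.Prime ∧ (p ∈ S ∨ p = ps ∨
    ∃ j, p ∣ s + t j)) with hF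
  have hFmem : ∀ p : ℕ, p ∈ F ↔ (p ≤ y ∧ p.Prime ∧ (p ∈ S ∨ p = ps ∨
      ∃ j, p ∣ s + t j)) := by
    intro p
    rw [hF, mem_filter, mem_Icc]
    constructor
    · rintro ⟨⟨_, h1⟩, h2⟩; exact ⟨h1, h2⟩
    · rintro ⟨h1, h2⟩; exact ⟨⟨h2.1.pos, h1⟩, h2⟩
  have hpos : ∀ i : ℕ, 0 ≤ (1 : ℝ) / (i : ℝ) := fun i => by positivity
  set Ps : Finset ℕ := if ps.Prime then {ps} else ∅ with hPs
  have hPs2 : ∀ q ∈ Ps, q = ps ∧ ps.Prime := by
    intro q hq
    rw [hPs] at hq
    split_ifs at hq with h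
    · exact ⟨mem_singleton.1 hq, h⟩
    · simp at hq
  have hFsub : F ⊆ (S ∪ Ps) ∪
      univ.biUnion (fun j => (Icc 1 y).filter (fun p : ℕ => p.Prime ∧ p ∣ s + t j)) := by
    intro p hp
    rw [hFmem] at hp
    obtain ⟨h1, h2, h3⟩ := hp
    rw [mem_union, mem_union]
    rcases h3 with h | h | h
    · exact Or.inl (Or.inl h)
    · left; right
      rw [hPs, ← h, if_pos h2]
      simp
    · right
      obtain ⟨j, h⟩ := h
      rw [mem_biUnion]
      refine ⟨j, mem_univ _, ?_⟩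
      rw [mem_filter, mem_Icc]
      exact ⟨⟨h2.pos, h1⟩, h2, h⟩
  have hSsum : ∑ q ∈ S, (1 : ℝ) / q ≤ 6 / A ^ 2 := hS.2
  have hA100 : 100 ≤ A := by linarith
  have hFsum : ∑ q ∈ F, (1 : ℝ) / q ≤ 2 + 3 * K * K := by
    have h1 : ∑ q ∈ F, (1 : ℝ) / q ≤ (∑ q ∈ S, (1 : ℝ) / q + ∑ q ∈ Ps, (1 : ℝ) / q) +
        ∑ q ∈ univ.biUnion (fun j => (Icc 1 y).filter (fun p : ℕ => p.Prime ∧ p ∣ s + t j)),
          (1 : ℝ) / q := by
      refine (sum_le_sum_of_subset_of_nonneg hFsub (fun i _ _ => hpos i)).trans ?_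
      refine (sum_union_le' _ hpos).trans ?_
      apply add_le_add_left
      exact sum_union_le' _ hpos
    have h2 : ∑ q ∈ Ps, (1 : ℝ) / q ≤ 1 := by
      rw [hPs]
      split_ifs with h
      · rw [sum_singleton, div_le_one (by exact_mod_cast h.pos)]
        exact_mod_cast h.one_lt.le
      · simp
    have h3 : ∑ q ∈ S, (1 : ℝ) / q ≤ 1 := by
      refine hSsum.trans ?_
      rw [div_le_one (by positivity)]
      nlinarith
    have h4 : ∑ q ∈ univ.biUnion (fun j => (Icc 1 y).filter (fun p : ℕ => p.Prime ∧ p ∣ s + t j)),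
        (1 : ℝ) / q ≤ 3 * K * K := by
      refine (sum_biUnion_le' _ _ _ hpos).trans ?_
      refine (sum_le_card_nsmul _ _ _ (fun j _ => (hs12 j).1)).trans (le_of_eq ?_)
      rw [card_univ, Fintype.card_fin, nsmul_eq_mul]
      ring
    linarith
  have hFtail : ∑ q ∈ F.filter (fun q : ℕ => V0 y < Real.log q), (1 : ℝ) / q ≤ (8 + 3 * K * K) / Real.log y := by
    have hV0' : Real.exp (-(V0 y)) ≤ 1 / (Real.log y) ^ 4 := by
      rw [Real.exp_neg, ← one_div]
      exact one_div_le_one_div_of_le (by positivity) hv2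
    have hbig : ∀ q : ℕ, 0 < q → V0 y < Real.log q → (1 : ℝ) / q ≤ 1 / (Real.log y) ^ 4 := by
      intro q hq0 hq
      have hq0' : (0 : ℝ) < q := by exact_mod_cast hq0
      refine le_trans ?_ hV0'
      rw [Real.exp_neg, ← one_div]
      exact one_div_le_one_div_of_le (Real.exp_pos _) ((Real.lt_log_iff_exp_lt hq0').1 hq).le
    have h1 : ∑ q ∈ F.filter (fun q : ℕ => V0 y < Real.log q), (1 : ℝ) / q ≤
        (∑ q ∈ S, (1 : ℝ) / q + ∑ q ∈ Ps.filter (fun q : ℕ => V0 y < Real.log q), (1 : ℝ) / q) +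
        ∑ q ∈ univ.biUnion (fun j => (Icc 1 y).filter (fun p : ℕ => p.Prime ∧ p ∣ s + t j ∧
          V0 y < Real.log p)), (1 : ℝ) / q := by
      have hsub : F.filter (fun q : ℕ => V0 y < Real.log q) ⊆
          (S ∪ Ps.filter (fun q : ℕ => V0 y < Real.log q)) ∪
          univ.biUnion (fun j => (Icc 1 y).filter (fun p : ℕ => p.Prime ∧ p ∣ s + t j ∧
            V0 y < Real.log p)) := by
        intro p hp
        rw [mem_filter] at hp
        have h2 := hFsub hp.1
        rw [mem_union, mem_union] at h2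
        rw [mem_union, mem_union, mem_filter]
        rcases h2 with (h | h) | h
        · exact Or.inl (Or.inl h)
        · exact Or.inl (Or.inr ⟨h, hp.2⟩)
        · right
          rw [mem_biUnion] at h ⊢
          obtain ⟨j, hj, h⟩ := h
          refine ⟨j, hj, ?_⟩
          rw [mem_filter] at h ⊢
          exact ⟨h.1, h.2.1, h.2.2, hp.2⟩
      refine (sum_le_sum_of_subset_of_nonneg hsub (fun i _ _ => hpos i)).trans ?_
      refine (sum_union_le' _ hpos).trans ?_
      apply add_le_add_left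
      exact sum_union_le' _ hpos
    have hl4 : 1 / (Real.log y) ^ 4 ≤ 1 / Real.log y := by
      apply one_div_le_one_div_of_le hly0
      calc Real.log y = (Real.log y) ^ 1 := (pow_one _).symm
        _ ≤ (Real.log y) ^ 4 := pow_le_pow_right₀ (by linarith) (by norm_num)
    have h2 : ∑ q ∈ Ps.filter (fun q : ℕ => V0 y < Real.log q), (1 : ℝ) / q ≤ 1 / Real.log y := by
      refine le_trans ?_ hl4
      have h3 : (Ps.filter (fun q : ℕ => V0 y < Real.log q)).card ≤ 1 := by
        refine (card_le_card (filter_subset _ _)).trans ?_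
        rw [hPs]
        split_ifs <;> simp
      have h4 : ∑ q ∈ Ps.filter (fun q : ℕ => V0 y < Real.log q), (1 : ℝ) / q ≤
          (Ps.filter (fun q : ℕ => V0 y < Real.log q)).card • (1 / (Real.log y) ^ 4) := by
        apply sum_le_card_nsmul
        intro q hq
        rw [mem_filter] at hq
        obtain ⟨h5, h6⟩ := hPs2 q hq.1
        exact hbig q (by rw [h5]; exact h6.pos) hq.2
      rw [nsmul_eq_mul] at h4
      have h5 : ((Ps.filter (fun q : ℕ => V0 y < Real.log q)).card : ℝ) ≤ 1 := by exact_mod_cast h3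
      have h6 : 0 ≤ 1 / (Real.log y) ^ 4 := by positivity
      nlinarith
    have h4 : ∑ q ∈ S, (1 : ℝ) / q ≤ 6 / Real.log y := by
      refine hSsum.trans ?_
      apply div_le_div_of_nonneg_left (by norm_num) hly0
      nlinarith
    have h5 : ∑ q ∈ univ.biUnion (fun j => (Icc 1 y).filter (fun p : ℕ => p.Prime ∧ p ∣ s + t j ∧
          V0 y < Real.log p)), (1 : ℝ) / q ≤ 3 * K * K / Real.log y := by
      refine (sum_biUnion_le' _ _ _ hpos).trans ?_
      refine (sum_le_card_nsmul _ _ _ (fun j _ => (hs12 j).2)).trans (le_of_eq ?_)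
      rw [card_univ, Fintype.card_fin, nsmul_eq_mul]
      ring
    have h6 : (8 + 3 * K * K) / Real.log y = 6 / Real.log y + 1 / Real.log y + 1 / Real.log y +
      3 * K * K / Real.log y := by ring
    have h7 : 0 ≤ 1 / Real.log y := by positivity
    linarith
  obtain ⟨β, hβ1, hβ2⟩ := hrs y hyy0 F (fun q hq => ((hFmem q).1 hq).2.1) hFsum hFtail H hyH hHy
    (fun j _ => s + t j) (by
      intro j p hp hpy hpF _ hd
      apply hpF
      rw [hFmem]
      exact ⟨hpy, hp, Or.inr (Or.inr ⟨j, hd⟩)⟩)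
  have hcardle : C * H * (Real.log (Real.log y)) ^ 2 /
        ((Real.log y) ^ 2 * Real.log (Real.log (Real.log y))) ≤ c₃ * (T / A) := by
    calc C * H * (Real.log (Real.log y)) ^ 2 /
        ((Real.log y) ^ 2 * Real.log (Real.log (Real.log y)))
        ≤ C * (c₂ * rk X) * B ^ 2 / ((A / 2) ^ 2 * (D' / 2)) := by gcongr
      _ = 8 * C * c₂ * (T / A) := by
          rw [hrk]
          field_simp
          ring
      _ ≤ 8 * C * (c₃ / (8 * C)) * (T / A) := by gcongr
      _ = c₃ * (T / A) := by field_simp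
  refine ⟨fun p => if p ∈ F then u p else s + (p - β p),
    (range (⌊c₂ / 4 * rk X⌋₊ + 1)).filter (fun m => (∀ j, m ≠ t j) ∧ ∀ p : ℕ, p.Prime → p ≤ y → p ∉ F →
      ¬ s + m ≡ β p [MOD p]), ?_, ?_, ?_, ?_⟩
  · refine le_trans ?_ (hβ2.trans hcardle)
    apply Nat.cast_le.2
    apply card_le_card_of_injOn (fun m => s + m)
    · intro m hm
      simp only [coe_filter, mem_range, Set.mem_ofPred_eq] at hm ⊢
      refine ⟨?_, hm.2.2⟩
      have h1 : m ≤ ⌊c₂ / 4 * rk X⌋₊ := by omega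
      have h2 : (m : ℝ) ≤ c₂ / 4 * rk X :=
        (Nat.le_floor_iff (by rw [hrk]; positivity)).1 h1
      have h3 : (s : ℝ) ≤ y := by exact_mod_cast hsy.le
      have h4 : ((s + m : ℕ) : ℝ) < H + 1 := by
        push_cast
        linarith
      exact_mod_cast h4
    · intro a _ b _ hab
      simpa using hab
  · intro m hm
    rw [mem_filter, mem_range] at hm
    refine ⟨?_, hm.2.1⟩
    exact (Nat.le_floor_iff (by rw [hrk]; positivity)).1 (by omega : m ≤ ⌊c₂ / 4 * rk X⌋₊)
  · intro p hp hpy j hd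
    obtain ⟨hpyy, hpp, hpS, hpps⟩ := mem_PW.1 hp
    simp only at hd
    by_cases hpF : p ∈ F
    · rw [if_pos hpF] at hd
      exact hu p hpp hpyy j hd
    · rw [if_neg hpF] at hd
      obtain ⟨hb1, hb2⟩ := hβ1 p hpp hpy hpF
      apply hb2 j
      have h1 : s + t j + p ≡ β p [MOD p] := by
        have h2 : s + (p - β p) + t j + β p = s + t j + p := by omega
        rw [← h2]
        have h3 : s + (p - β p) + t j ≡ 0 [MOD p] := (Nat.modEq_zero_iff_dvd).2 hd
        have h4 := h3.add_right (β p)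
        rwa [zero_add] at h4
      have h5 : s + t j + p ≡ s + t j [MOD p] := by
        unfold Nat.ModEq
        rw [Nat.add_mod_right]
      exact h5.symm.trans h1
  · intro m hm hmt
    by_cases hmU : m ∈ (range (⌊c₂ / 4 * rk X⌋₊ + 1)).filter (fun m => (∀ j, m ≠ t j) ∧
        ∀ p : ℕ, p.Prime → p ≤ y → p ∉ F → ¬ s + m ≡ β p [MOD p])
    · exact Or.inl hmU
    · right
      have h1 : m < ⌊c₂ / 4 * rk X⌋₊ + 1 := Nat.lt_succ_of_le (Nat.le_floor hm)
      rw [mem_filter, mem_range] at hmU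
      push Not at hmU
      obtain ⟨p, hpp, hpy, hpF, hpk⟩ := hmU h1 hmt
      refine ⟨p, mem_PW.2 ⟨by omega, hpp, fun h => hpF ((hFmem p).2 ⟨hpy, hpp, Or.inl h⟩),
        fun h => hpF ((hFmem p).2 ⟨hpy, hpp, Or.inr (Or.inl h)⟩)⟩, hpy, ?_⟩
      simp only
      rw [if_neg hpF]
      obtain ⟨hb1, hb2⟩ := hβ1 p hpp hpy hpF
      rw [← Nat.modEq_zero_iff_dvd]
      have h2 : s + (p - β p) + m + β p = s + m + p := by omega
      have h3 : s + (p - β p) + m + β p ≡ 0 + β p [MOD p] := by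
        rw [h2, zero_add]
        have h5 : s + m + p ≡ s + m [MOD p] := by
          unfold Nat.ModEq
          rw [Nat.add_mod_right]
        exact h5.trans hpk
      exact Nat.ModEq.add_right_cancel' _ h3

end Pool.Agent.Y175.RC
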