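import Pool.Agent.Y175.RC.CovA
import Pool.Agent.TH423.SH.PAIP

set_option autoImplicit false
set_option maxHeartbeats 4000000

/-!
# Rankin's covering around prescribed positions: complete covering

Author: helper175.
-/

namespace Pool.Agent.Y175.RC

open Finset Filter Pool.Agent.H398R2.RK
open Pool.Agent.H378R2

open scoped Classical

/-- distinct representatives avoiding small bad sets -/
theorem assign (K : ℕ) (U Q : Finset ℕ) (bad : ℕ → Finset ℕ) (hbad : ∀ m ∈ U, (bad m).card ≤ K)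
    (h : U.card + K ≤ Q.card) : ∃ φ : ℕ → ℕ, (∀ m ∈ U, φ m ∈ Q ∧ φ m ∉ bad m) ∧
      ∀ m ∈ U, ∀ m' ∈ U, φ m = φ m' → m = m' := by
  induction U using Finset.induction_on with
  | empty => exact ⟨fun _ => 0, by simp, by simp⟩
  | insert a U ha ih =>
    rw [card_insert_of_notMem ha] at h
    obtain ⟨φ, h1, h2⟩ := ih (fun m hm => hbad m (mem_insert_of_mem hm)) (by omega)
    have hex : ∃ q ∈ Q, q ∉ bad a ∪ U.image φ := by
      by_contra hno
      push Not at hno
      have h3 : Q.card ≤ (bad a ∪ U.image φ).card := card_le_card hno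
      have h4 := card_union_le (bad a) (U.image φ)
      have h5 := hbad a (mem_insert_self _ _)
      have h6 := card_image_le (s := U) (f := φ)
      omega
    obtain ⟨q, hq, hq'⟩ := hex
    rw [mem_union, not_or] at hq'
    refine ⟨fun m => if m = a then q else φ m, ?_, ?_⟩
    · intro m hm
      simp only
      rcases mem_insert.1 hm with rfl | hm
      · rw [if_pos rfl]; exact ⟨hq, hq'.1⟩
      · have : m ≠ a := fun e => ha (e ▸ hm)
        rw [if_neg this]; exact h1 m hm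
    · intro m hm m' hm' hmm
      simp only at hmm
      by_cases h3 : m = a
      · by_cases h4 : m' = a
        · rw [h3, h4]
        · rw [if_pos h3, if_neg h4] at hmm
          have h5 : m' ∈ U := (mem_insert.1 hm').resolve_left h4
          exact absurd (mem_image.2 ⟨m', h5, hmm.symm⟩) hq'.2
      · have h5 : m ∈ U := (mem_insert.1 hm).resolve_left h3
        by_cases h4 : m' = a
        · rw [if_neg h3, if_pos h4] at hmm
          exact absurd (mem_image.2 ⟨m, h5, hmm⟩) hq'.2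
        · rw [if_neg h3, if_neg h4] at hmm
          exact h2 m h5 m' ((mem_insert.1 hm').resolve_left h4) hmm

/-- primes in `(y/2, y]` -/
theorem primes_half : ∃ Y₀ : ℕ, ∀ Y : ℕ, Y₀ ≤ Y →
    (Y : ℝ) / (8 * Real.log Y) ≤ (((Ioc (Y / 2) Y).filter Nat.Prime).card : ℝ) := by
  obtain ⟨x₀, h⟩ := Pool.Agent.TH423.SH.pai 1 le_rfl (1 / 2) (1 / 4) (by norm_num) (by norm_num)
  refine ⟨max ⌈x₀⌉₊ 100, fun Y hY => ?_⟩
  have hY1 : x₀ ≤ Y := (Nat.le_ceil _).trans (by exact_mod_cast (le_max_left _ _).trans hY)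
  have hY2 : 100 ≤ Y := (le_max_right _ _).trans hY
  have hY2r : (100 : ℝ) ≤ Y := by exact_mod_cast hY2
  have hd1 : Y ≤ 2 * (Y / 2 + 1) := by omega
  have hd2 : 2 * (Y / 2 + 1) ≤ Y + 2 := by omega
  have hd1r : (Y : ℝ) ≤ 2 * ((Y / 2 + 1 : ℕ) : ℝ) := by exact_mod_cast hd1
  have hd2r : 2 * ((Y / 2 + 1 : ℕ) : ℝ) ≤ Y + 2 := by exact_mod_cast hd2
  have key := h Y hY1 (Y / 2 + 1) Y 0 (by linarith) (by linarith) (by linarith) (by simp)
  have hlog : 0 < Real.log Y := Real.log_pos (by linarith)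
  have h1 : (((Ioc (Y / 2 + 1) Y).filter (fun q => q.Prime ∧ q % 1 = 0 % 1)).card : ℝ) ≤
      (((Ioc (Y / 2) Y).filter Nat.Prime).card : ℝ) := by
    apply Nat.cast_le.2
    apply card_le_card
    intro q hq
    rw [mem_filter, mem_Ioc] at hq ⊢
    exact ⟨⟨by omega, hq.1.2⟩, hq.2.1⟩
  have h2 := (abs_le.1 key).1
  simp only [Nat.totient_one, Nat.cast_one, one_mul] at h2
  have h3 : (Y : ℝ) / (8 * Real.log Y) ≤ 1 / 2 * ((Y - ((Y / 2 + 1 : ℕ) : ℝ)) / Real.log Y) := by
    rw [mul_div_assoc', div_le_div_iff₀ (by positivity) hlog]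
    nlinarith
  linarith

/-- two different large primes cannot divide a small nonzero difference -/
lemma at_most_one (m t q1 q2 y : ℕ) (h1 : q1.Prime) (h2 : q2.Prime) (hne : q1 ≠ q2) (hmt : m ≠ t)
    (hy1 : y < q1) (hy2 : y < q2) (hd1 : (q1 : ℤ) ∣ (m : ℤ) - t) (hd2 : (q2 : ℤ) ∣ (m : ℤ) - t)
    (hm : m ≤ y ^ 2) (ht : t ≤ y ^ 2) : False := by
  have hcop : Nat.Coprime q1 q2 := (Nat.coprime_primes h1 h2).2 hne
  have hd : ((q1 * q2 : ℕ) : ℤ) ∣ (m : ℤ) - t := by
    push_cast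
    exact IsCoprime.mul_dvd (Nat.isCoprime_iff_coprime.2 hcop) hd1 hd2
  have hne0 : (m : ℤ) - t ≠ 0 := by omega
  have hle := Int.le_of_dvd (abs_pos.2 hne0) ((dvd_abs _ _).2 hd)
  have h3 : |(m : ℤ) - t| ≤ ((y ^ 2 : ℕ) : ℤ) := by
    rw [abs_le]
    constructor <;> omega
  have h9 : y ^ 2 < q1 * q2 := by
    rw [sq]
    exact Nat.mul_lt_mul'' hy1 hy2
  have h10 : ((y ^ 2 : ℕ) : ℤ) < ((q1 * q2 : ℕ) : ℤ) := by exact_mod_cast h9
  omega

/-- **Complete covering of a Rankin window around at most `K` positions.** -/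
theorem cover (K : ℕ) : ∃ c : ℝ, 0 < c ∧ c ≤ 1 ∧
    ∀ᶠ X : ℝ in atTop, ∀ (ps : ℕ) (S : Finset ℕ), GoodP 2 ps → GoodS X S →
    ∀ (t : Fin K → ℕ) (u : ℕ → ℕ), (∀ p, p.Prime → p ≤ yy X → ∀ j, ¬ p ∣ u p + t j) →
    (∀ j, (t j : ℝ) ≤ c * rk X) →
    ∃ a : ℕ, (∀ j, (a + t j).Coprime (WW X S ps)) ∧
      ∀ m : ℕ, (m : ℝ) ≤ c * rk X → (∀ j, m ≠ t j) → ∃ p ∈ PW X S ps, p ∣ a + m := by
  obtain ⟨c, hc, hc1, hcov⟩ := cov_half K (1 / 128000) (by norm_num)
  obtain ⟨Y₀, hY₀⟩ := primes_half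
  refine ⟨c, hc, hc1, ?_⟩
  have t1 := Real.tendsto_log_atTop
  have t2 : Tendsto (fun y : ℝ => Real.log (Real.log y)) atTop atTop := t1.comp t1
  have t3 : Tendsto (fun y : ℝ => Real.log (Real.log (Real.log y))) atTop atTop := t1.comp t2
  have t4 : Tendsto (fun y : ℝ => Real.log (Real.log (Real.log (Real.log y)))) atTop atTop := t1.comp t3
  have hcA := ev_log_le (1 / (128000 * ((K : ℝ) + 2))) (by positivity)
  have hcB := ev_log_le 1 one_pos
  filter_upwards [hcov, t2.eventually_ge_atTop 1000, t1.eventually_ge_atTop (2000 * ((Y₀ : ℝ) + 2)),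
    eventually_gt_atTop 0, t1.eventually hcA, t2.eventually hcB, t3.eventually hcB,
    t4.eventually_ge_atTop 1, t3.eventually_ge_atTop 1,
    t1.eventually_ge_atTop (1000000 : ℝ)] with X h1 e1 e2 hX0 eA e2B eB eD eB1 eT
  intro ps S hps hS t u hu ht
  obtain ⟨ρ, U0, hU1, hU2, hρ, hcv⟩ := h1 ps S hps hS t u hu
  set T := Real.log X with hT
  have hT0 : 0 < T := by linarith
  set A := Real.log T with hA
  set B := Real.log A with hB
  set D' := Real.log B with hD
  have hrk : rk X = T * A * D' / B ^ 2 := rfl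
  have hA0 : 0 < A := by linarith
  have hB0 : 0 < B := by linarith
  have hD0 : 0 < D' := by linarith
  have hDB : D' ≤ B ^ 2 := by
    have h1 : D' ≤ 1 * Real.sqrt B := eB
    have h2 : Real.sqrt B ≤ B := by
      rw [Real.sqrt_le_left hB0.le]
      nlinarith
    nlinarith
  have hK0 : (0 : ℝ) ≤ K := Nat.cast_nonneg K
  have hsT : Real.sqrt T ≤ T := by
    rw [Real.sqrt_le_left hT0.le]
    nlinarith
  have hAK' : A ≤ Real.sqrt T / (128000 * ((K : ℝ) + 2)) := by
    refine eA.trans (le_of_eq ?_)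
    ring
  have hAT : A ^ 2 ≤ T / 64000 := by
    have h2 : A ≤ Real.sqrt T / 256000 := by
      refine hAK'.trans ?_
      apply div_le_div_of_nonneg_left (Real.sqrt_nonneg T) (by norm_num)
      linarith
    have h3 : A ^ 2 ≤ (Real.sqrt T / 256000) ^ 2 := pow_le_pow_left₀ hA0.le h2 2
    rw [div_pow, Real.sq_sqrt hT0.le] at h3
    linarith
  have hAK : ((K : ℝ) + 2) * A ≤ T / 128000 := by
    have h2 : ((K : ℝ) + 2) * A ≤ ((K : ℝ) + 2) * (Real.sqrt T / (128000 * ((K : ℝ) + 2))) :=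
      mul_le_mul_of_nonneg_left hAK' (by linarith)
    have h3 : ((K : ℝ) + 2) * (Real.sqrt T / (128000 * ((K : ℝ) + 2))) = Real.sqrt T / 128000 := by
      field_simp
    linarith
  set Y := yy X with hY
  have hYT : (Y : ℝ) ≤ T / 1000 := Nat.floor_le (by positivity)
  have hYT2 : T / 1000 < (Y : ℝ) + 1 := Nat.lt_floor_add_one _
  have hYT3 : T / 2000 ≤ Y := by linarith
  have hYY : Y₀ ≤ Y := by
    have : (Y₀ : ℝ) ≤ Y := by linarith
    exact_mod_cast this
  have hY0 : (0 : ℝ) < Y := by linarith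
  have hlY : Real.log Y ≤ A := by
    rw [hA]; apply Real.log_le_log hY0; linarith
  have hlY0 : 0 < Real.log Y := Real.log_pos (by linarith)
  have hprime := hY₀ Y hYY
  -- the new primes
  obtain ⟨Q, hQ⟩ : ∃ Q : Finset ℕ, Q = (PW X S ps).filter (fun p => Y / 2 < p) := ⟨_, rfl⟩
  have hQmem : ∀ p, p ∈ Q ↔ (p ≤ Y ∧ p.Prime ∧ p ∉ S ∧ p ≠ ps) ∧ Y / 2 < p := fun p => by
    rw [hQ, mem_filter, mem_PW]
  have hSc : ((S.filter (fun p => Y / 2 < p)).card : ℝ) * (1 / Y) ≤ 6 / A ^ 2 := by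
    refine le_trans ?_ hS.2
    calc ((S.filter (fun p => Y / 2 < p)).card : ℝ) * (1 / Y)
        ≤ ∑ q ∈ S.filter (fun p => Y / 2 < p), (1 : ℝ) / q := by
          rw [← nsmul_eq_mul]
          apply card_nsmul_le_sum
          intro q hq
          have hq1 := hS.1 q (mem_filter.1 hq).1
          apply one_div_le_one_div_of_le (by exact_mod_cast hq1.1.pos)
          exact_mod_cast hq1.2.2
      _ ≤ _ := sum_le_sum_of_subset_of_nonneg (filter_subset _ _) (fun _ _ _ => by positivity)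
  have hSc' : ((S.filter (fun p => Y / 2 < p)).card : ℝ) ≤ 6 * Y / A ^ 2 := by
    have h3 := mul_le_mul_of_nonneg_right hSc hY0.le
    rw [mul_assoc, one_div, inv_mul_cancel₀ hY0.ne', mul_one] at h3
    calc _ ≤ _ := h3
      _ = _ := by ring
  have hQc : (T / (64000 * A) : ℝ) ≤ Q.card := by
    have h3 : ((Ioc (Y / 2) Y).filter Nat.Prime).card ≤ Q.card +
        ((S.filter (fun p => Y / 2 < p)).card + 1) := by
      have h4 : (Ioc (Y / 2) Y).filter Nat.Prime ⊆ Q ∪ (S.filter (fun p => Y / 2 < p) ∪ {ps}) := by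
        intro p hp
        rw [mem_filter, mem_Ioc] at hp
        rw [mem_union, mem_union, mem_singleton, mem_filter, hQmem]
        by_cases h5 : p ∈ S
        · exact Or.inr (Or.inl ⟨h5, hp.1.1⟩)
        · by_cases h6 : p = ps
          · exact Or.inr (Or.inr h6)
          · exact Or.inl ⟨⟨hp.1.2, hp.2, h5, h6⟩, hp.1.1⟩
      refine (card_le_card h4).trans ((card_union_le _ _).trans ?_)
      have := card_union_le (S.filter (fun p => Y / 2 < p)) {ps}
      rw [card_singleton] at this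
      omega
    have h3r : (((Ioc (Y / 2) Y).filter Nat.Prime).card : ℝ) ≤ Q.card +
        (((S.filter (fun p => Y / 2 < p)).card : ℝ) + 1) := by exact_mod_cast h3
    have h5 : (Y : ℝ) / (8 * A) ≤ (Y : ℝ) / (8 * Real.log Y) := by gcongr
    have h6 : 6 * (Y : ℝ) / A ^ 2 ≤ Y / (16 * A) := by
      rw [div_le_div_iff₀ (by positivity) (by positivity)]
      have : 96 * ((Y : ℝ) * A) ≤ A * (Y * A) := by
        apply mul_le_mul_of_nonneg_right (by linarith) (by positivity)
      nlinarith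
    have h7 : (1 : ℝ) ≤ T / (64000 * A) := by
      rw [le_div_iff₀ (by positivity)]
      nlinarith
    have h8 : (Y : ℝ) / (8 * A) = Y / (16 * A) + Y / (16 * A) := by
      field_simp; ring
    have h9 : T / (64000 * A) + T / (64000 * A) ≤ Y / (16 * A) := by
      rw [← add_div, div_le_div_iff₀ (by positivity) (by positivity)]
      have h10 : T ≤ 2000 * Y := by linarith
      have h11 : T * A ≤ 2000 * Y * A := mul_le_mul_of_nonneg_right h10 hA0.le
      linarith
    linarith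
  have hcount : U0.card + K ≤ Q.card := by
    have h3 : (U0.card : ℝ) + K ≤ Q.card := by
      refine le_trans ?_ hQc
      have h4 : (K : ℝ) ≤ 1 / 128000 * (T / A) := by
        rw [mul_div_assoc', le_div_iff₀ hA0]
        linarith
      have h5 : T / (64000 * A) = 1 / 128000 * (T / A) + 1 / 128000 * (T / A) := by
        field_simp; ring
      linarith
    exact_mod_cast h3
  have hrkY : c * rk X ≤ (Y / 2 : ℕ) ^ 2 := by
    have h3 : rk X ≤ T * A := by
      rw [hrk, div_le_iff₀ (by positivity)]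
      exact mul_le_mul_of_nonneg_left hDB (by positivity)
    have h4 : T / 4000 - 1 ≤ ((Y / 2 : ℕ) : ℝ) := by
      have h5 : Y ≤ 2 * (Y / 2) + 1 := by omega
      have h5r : (Y : ℝ) ≤ 2 * ((Y / 2 : ℕ) : ℝ) + 1 := by exact_mod_cast h5
      linarith
    have h5 : T / 8000 ≤ ((Y / 2 : ℕ) : ℝ) := by linarith
    have h6 : (T / 8000) ^ 2 ≤ ((Y / 2 : ℕ) : ℝ) ^ 2 := by gcongr
    have hrk0 : 0 ≤ rk X := by rw [hrk]; positivity
    have h7 : c * rk X ≤ T * A := by nlinarith
    have h8 : T * A ≤ (T / 8000) ^ 2 := by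
      have : 64000000 * A ≤ T := by nlinarith
      nlinarith
    linarith
  obtain ⟨φ, hφ1, hφ2⟩ := assign K U0 Q
    (fun m => univ.biUnion (fun j => Q.filter (fun q => (q : ℤ) ∣ (m : ℤ) - t j)))
    (by
      intro m hm
      obtain ⟨hm1, hm2⟩ := hU2 m hm
      refine card_biUnion_le.trans ?_
      calc ∑ j : Fin K, (Q.filter (fun q : ℕ => (q : ℤ) ∣ (m : ℤ) - t j)).card ≤ ∑ j : Fin K, 1 := by
            apply sum_le_sum
            intro j _
            rw [card_le_one]
            intro q1 hq1 q2 hq2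
            rw [mem_filter, hQmem] at hq1 hq2
            by_contra hne
            have f1 : m ≤ (Y / 2) ^ 2 := by exact_mod_cast hm1.trans hrkY
            have f2 : t j ≤ (Y / 2) ^ 2 := by exact_mod_cast (ht j).trans hrkY
            exact at_most_one m (t j) q1 q2 (Y / 2) hq1.1.1.2.1 hq2.1.1.2.1 hne (hm2 j) hq1.1.2 hq2.1.2
              hq1.2 hq2.2 f1 f2
        _ = K := by simp)
    hcount
  -- residues
  set ρ' : ℕ → ℕ := fun p => if p ≤ Y / 2 then ρ p else
    if h : ∃ m ∈ U0, φ m = p then (p - 1) * h.choose else u p with hρ'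
  obtain ⟨a, ha⟩ := Nat.chineseRemainderOfFinset ρ' (fun p => p) (PW X S ps)
    (fun p hp => (mem_PW.1 hp).2.1.ne_zero)
    (fun p hp q hq hpq => (Nat.coprime_primes (mem_PW.1 (by simpa using hp)).2.1
      (mem_PW.1 (by simpa using hq)).2.1).2 hpq)
  refine ⟨a, ?_, ?_⟩
  · intro j
    unfold WW
    rw [Nat.coprime_prod_right_iff]
    intro p hp
    have hpp := (mem_PW.1 hp).2.1
    have hpY := (mem_PW.1 hp).1
    rw [Nat.coprime_comm, Nat.Prime.coprime_iff_not_dvd hpp]
    intro hd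
    have h3 : a + t j ≡ ρ' p + t j [MOD p] := (ha p hp).add_right (t j)
    have h4 : p ∣ ρ' p + t j := (Nat.modEq_zero_iff_dvd).1 (h3.symm.trans ((Nat.modEq_zero_iff_dvd).2 hd))
    simp only [hρ'] at h4
    split_ifs at h4 with h5 h6
    · exact hρ p hp h5 j h4
    · have hc := h6.choose_spec
      set m := h6.choose with hm
      have hbad := (hφ1 m hc.1).2
      rw [mem_biUnion] at hbad
      push Not at hbad
      have hb := hbad j (mem_univ _)
      rw [hc.2, mem_filter, not_and] at hb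
      have hQm := (hφ1 m hc.1).1
      rw [hc.2] at hQm
      apply hb hQm
      have h7 : ((p : ℕ) : ℤ) ∣ (((p - 1) * m + t j : ℕ) : ℤ) := Int.natCast_dvd_natCast.2 h4
      have h8 : (((p - 1) * m + t j : ℕ) : ℤ) = p * m - (m - t j) := by
        have hp1 : 1 ≤ p := hpp.one_le
        push_cast [Nat.cast_sub hp1]
        ring
      rw [h8] at h7
      exact (dvd_sub_right (Dvd.intro _ rfl)).1 h7
    · exact hu p hpp hpY j h4
  · intro m hm hmt
    rcases hcv m hm hmt with hmU | ⟨p, hp, hpY, hd⟩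
    · obtain ⟨h3, _⟩ := hφ1 m hmU
      rw [hQ, mem_filter] at h3
      refine ⟨φ m, h3.1, ?_⟩
      have hpp := (mem_PW.1 h3.1).2.1
      have h4 : a + m ≡ ρ' (φ m) + m [MOD φ m] := (ha (φ m) h3.1).add_right m
      rw [← Nat.modEq_zero_iff_dvd]
      refine h4.trans ((Nat.modEq_zero_iff_dvd).2 ?_)
      have hex : ∃ m' ∈ U0, φ m' = φ m := ⟨m, hmU, rfl⟩
      simp only [hρ']
      rw [if_neg (by omega), dif_pos hex]
      have hc := hex.choose_spec
      have h5 : hex.choose = m := hφ2 _ hc.1 m hmU hc.2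
      rw [h5]
      have hp1 := hpp.one_le
      refine ⟨m, ?_⟩
      have : (φ m - 1) * m + m = (φ m - 1 + 1) * m := by ring
      rw [this, Nat.sub_add_cancel hp1]
    · refine ⟨p, hp, ?_⟩
      have h4 : a + m ≡ ρ' p + m [MOD p] := (ha p hp).add_right m
      rw [← Nat.modEq_zero_iff_dvd]
      refine h4.trans ((Nat.modEq_zero_iff_dvd).2 ?_)
      simp only [hρ']
      rw [if_pos hpY]
      exact hd

end Pool.Agent.Y175.RC
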