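import Pool.Agent.Y175.RC.Main

set_option autoImplicit false

/-!
# Inversion of Rankin's function

Author: helper175.
-/

namespace Pool.Agent.Y175.RC

open Filter

/-- `g (log₂ g)² / (log g log₃ g)` -/
noncomputable def ri (g : ℝ) : ℝ :=
  g * (Real.log (Real.log g)) ^ 2 / (Real.log g * Real.log (Real.log (Real.log g)))

theorem rk_ri (c : ℝ) (hc : 0 < c) (hc1 : c ≤ 1) : ∀ᶠ g : ℝ in atTop, Real.sqrt g ≤ 4 / c * ri g ∧
    4 / c * ri g ≤ g ∧ ∀ X : ℝ, 4 / c * ri g ≤ Real.log X → Real.log X ≤ 2 * (4 / c * ri g) →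
      g ≤ c * rk X := by
  have t1 := Real.tendsto_log_atTop
  have t2 : Tendsto (fun y : ℝ => Real.log (Real.log y)) atTop atTop := t1.comp t1
  have t3 : Tendsto (fun y : ℝ => Real.log (Real.log (Real.log y))) atTop atTop := t1.comp t2
  have hA := Pool.Agent.H398R2.RK.ev_log_le 1 one_pos
  have hB := Pool.Agent.H398R2.RK.ev_log_le (Real.sqrt (c / 8)) (Real.sqrt_pos.2 (by positivity))
  filter_upwards [eventually_ge_atTop 1, t1.eventually_ge_atTop 1, t2.eventually_ge_atTop 1,
    t3.eventually_ge_atTop 1, hA, t1.eventually hB, t2.eventually_ge_atTop (2 * Real.log 2),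
    t3.eventually_ge_atTop (2 * Real.log 2), t2.eventually hA] with g g0 g1 g2 g3 gA gB g2' g3' g3A
  set l1 := Real.log g with hl1
  set l2 := Real.log l1 with hl2
  set l3 := Real.log l2 with hl3
  have hg0 : 0 < g := by linarith
  have hl10 : 0 < l1 := by linarith
  have hl20 : 0 < l2 := by linarith
  have hl30 : 0 < l3 := by linarith
  have hri : ri g = g * l2 ^ 2 / (l1 * l3) := rfl
  have hc4 : 4 ≤ 4 / c := by rw [le_div_iff₀ hc]; linarith
  have hc0 : 0 < 4 / c := by positivity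
  have hl23 : l3 ≤ l2 ^ 2 := by
    have h1 : l3 ≤ l2 - 1 := Real.log_le_sub_one_of_pos hl20
    nlinarith
  have h1g : l1 ≤ Real.sqrt g := by
    have := gA
    linarith
  have hsq : Real.sqrt g * Real.sqrt g = g := Real.mul_self_sqrt hg0.le
  have hsq0 : 0 < Real.sqrt g := Real.sqrt_pos.2 hg0
  have hT1 : Real.sqrt g ≤ 4 / c * ri g := by
    have h1 : g / l1 ≤ ri g := by
      rw [hri, div_le_div_iff₀ hl10 (by positivity)]
      have : g * (l1 * l3) ≤ g * (l1 * l2 ^ 2) := by gcongr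
      linarith
    have h2 : Real.sqrt g ≤ g / l1 := by
      rw [le_div_iff₀ hl10]
      nlinarith
    have h3 : 0 < ri g := lt_of_lt_of_le (by positivity) h1
    nlinarith
  have hl2l1 : l2 ^ 2 ≤ c / 8 * l1 := by
    have h2 : l2 ^ 2 ≤ (Real.sqrt (c / 8) * Real.sqrt l1) ^ 2 := pow_le_pow_left₀ hl20.le gB 2
    rw [mul_pow, Real.sq_sqrt (by positivity), Real.sq_sqrt hl10.le] at h2
    exact h2
  have hT2 : 2 * (4 / c * ri g) ≤ g := by
    rw [hri, mul_div_assoc', mul_div_assoc', div_le_iff₀ (by positivity)]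
    have h1 : 2 * (4 / c * (g * l2 ^ 2)) ≤ 2 * (4 / c * (g * (c / 8 * l1))) := by gcongr
    have h2 : 2 * (4 / c * (g * (c / 8 * l1))) = g * l1 := by field_simp; norm_num
    have h3 : g * l1 ≤ g * (l1 * l3) := by
      apply mul_le_mul_of_nonneg_left _ hg0.le
      nlinarith
    linarith
  refine ⟨hT1, by linarith [hsq0], ?_⟩
  intro X hX1 hX2
  set T := Real.log X with hT
  have hT0 : 0 < T := by linarith
  have hTg : T ≤ g := by linarith
  have hTs : Real.sqrt g ≤ T := by linarith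
  set A := Real.log T with hAd
  have hA1 : A ≤ l1 := Real.log_le_log hT0 hTg
  have hA2 : l1 / 2 ≤ A := by
    have h1 := Real.log_le_log hsq0 hTs
    rw [Real.log_sqrt hg0.le] at h1
    exact h1
  have hA0 : 0 < A := by linarith
  set B := Real.log A with hBd
  have hB1 : B ≤ l2 := Real.log_le_log hA0 hA1
  have hB2 : l2 / 2 ≤ B := by
    have h1 : Real.log (l1 / 2) ≤ B := Real.log_le_log (by positivity) hA2
    rw [Real.log_div hl10.ne' (by norm_num)] at h1
    linarith
  have hB0 : 0 < B := by linarith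
  set D := Real.log B with hDd
  have hD2 : l3 / 2 ≤ D := by
    have h1 : Real.log (l2 / 2) ≤ D := Real.log_le_log (by positivity) hB2
    rw [Real.log_div hl20.ne' (by norm_num)] at h1
    linarith
  have hrk : rk X = T * A * D / B ^ 2 := rfl
  rw [hrk]
  have h1 : (4 / c * ri g) * (l1 / 2) * (l3 / 2) / l2 ^ 2 ≤ T * A * D / B ^ 2 := by
    have hri0 : 0 < ri g := by rw [hri]; positivity
    obtain ⟨R0, hR0⟩ : ∃ R0, R0 = 4 / c * ri g := ⟨_, rfl⟩
    have hR00 : 0 < R0 := by rw [hR0]; positivity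
    rw [← hR0] at hX1 ⊢
    have hD0 : 0 < D := by linarith
    apply div_le_div₀ (by positivity) _ (by positivity) (pow_le_pow_left₀ hB0.le hB1 2)
    apply mul_le_mul _ hD2 (by positivity) (by positivity)
    exact mul_le_mul hX1 hA2 (by positivity) hT0.le
  have h2 : c * ((4 / c * ri g) * (l1 / 2) * (l3 / 2) / l2 ^ 2) = g := by
    rw [hri]
    field_simp
    norm_num
  calc g = c * ((4 / c * ri g) * (l1 / 2) * (l3 / 2) / l2 ^ 2) := h2.symm
    _ ≤ _ := mul_le_mul_of_nonneg_left h1 hc.le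

end Pool.Agent.Y175.RC
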