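import Pool.Agent.Y175.RC.SieB

set_option autoImplicit false
set_option maxHeartbeats 4000000

/-!
# Primes of a class modulo the big modulus, sieved

Author: helper175.
-/

namespace Pool.Agent.Y175.RC

open Finset Filter
open Pool.Agent.H378R2 (Phi EPhi LPhi MPhi WW PW yy z2 GoodP GoodS mem_PW)
open Pool.Agent.H318R2.Cr (V Pz mem_Pz cz_bounds one_sub_inv_pos V_pos)
open Pool.Agent.H373R2.T7 (JJ JJ_lt JJ_le)

/-- powers of the logarithm are small -/
lemma log_pow_small (n : ℕ) (s K0 : ℝ) (hs : 0 < s) :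
    ∀ᶠ X : ℕ in atTop, K0 * (Real.log X) ^ n ≤ (X : ℝ) ^ s := by
  have h1 := isLittleO_log_rpow_rpow_atTop (n : ℝ) hs
  have h2 := (h1.const_mul_left K0).bound (show (0 : ℝ) < 1 by norm_num)
  have h3 := (tendsto_natCast_atTop_atTop (R := ℝ)).eventually h2
  filter_upwards [h3] with X hX
  rw [Real.rpow_natCast, Real.norm_eq_abs, Real.norm_eq_abs, one_mul,
    abs_of_nonneg (Real.rpow_nonneg (Nat.cast_nonneg X) _)] at hX
  exact (le_abs_self _).trans hX

open Classical in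
theorem count (κ : ℕ) : ∃ (r₁ : ℕ), 1 ≤ r₁ ∧ ∀ᶠ X : ℕ in atTop, ∃ (ps : ℕ) (S : Finset ℕ),
    GoodP 2 ps ∧ GoodS X S ∧ ∀ a : ℕ, a.Coprime (WW X S ps) → ∀ Om : ℕ → Finset ℕ,
    (∀ p, p.Prime → (Om p).card ≤ κ ∧ 0 ∉ Om p ∧ ∀ c ∈ Om p, c < p) →
    (X : ℝ) ^ (9 / 10 : ℝ) ≤ (((Icc 1 (3 * X)).filter (fun n => n.Prime ∧ X < n ∧
      n % WW X S ps = a % WW X S ps ∧ ∀ p : ℕ, p.Prime → (p : ℝ) ≤ (X : ℝ) ^ (1 / (r₁ : ℝ)) →
        ¬ p ∣ WW X S ps → n % p ∉ Om p)).card : ℝ) := by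
  obtain ⟨C, hC1, hC⟩ := flb
  obtain ⟨c₁, c₂, hc₁, hc₁₂, hV⟩ := cz_bounds
  have hc₂ : 0 < c₂ := hc₁.trans_le hc₁₂
  obtain ⟨z0, hz0⟩ : ∃ z0, z0 = C * (κ + 2) + 2 * κ + 2 := ⟨_, rfl⟩
  obtain ⟨b, hb⟩ : ∃ b, b = z0 := ⟨_, rfl⟩
  have hbC : C * (κ + 2) ≤ b := by omega
  have hbC1 : C * (κ + 1) ≤ C * (κ + 2) := Nat.mul_le_mul_left _ (by omega)
  obtain ⟨E, hE⟩ : ∃ E, E = C * b * (κ + 2) := ⟨_, rfl⟩
  have hE1 : 1 ≤ E := by
    rw [hE]
    have h1 : 1 ≤ b := by omega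
    have h2 : 1 ≤ C * b := Nat.mul_pos hC1 h1
    exact Nat.mul_pos h2 (by omega)
  have hCbE : C * b ≤ E := by
    rw [hE]
    exact Nat.le_mul_of_pos_right _ (by omega)
  have hEr : (1 : ℝ) ≤ E := by exact_mod_cast hE1
  obtain ⟨Z, hZ⟩ : ∃ Z, Z = ⌈960000 * (κ : ℝ) * c₂ * E⌉₊ + z0 := ⟨_, rfl⟩
  obtain ⟨X1, hbv⟩ := bv_sum κ (κ + 1) (2 * κ + 3) (by
    have := Nat.lt_two_pow_self (n := κ + 1)
    omega) Z
  refine ⟨200 * E, by omega, ?_⟩
  have tX := tendsto_natCast_atTop_atTop (R := ℝ)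
  have t1 : Tendsto (fun X : ℕ => Real.log X) atTop atTop := Real.tendsto_log_atTop.comp tX
  have t2 : Tendsto (fun X : ℕ => Real.log (Real.log X)) atTop atTop := Real.tendsto_log_atTop.comp t1
  have hs0 : (0 : ℝ) < 1 / (200 * E) := by positivity
  filter_upwards [tX.eventually_ge_atTop X1, Pool.Agent.Y829.RW.LM (1 / 2) (by norm_num),
    t1.eventually_ge_atTop (1000 * ((z0 : ℝ) + 2)), t2.eventually_ge_atTop ((z0 : ℝ) + 1),
    log_pow_small 1 (1 / (200 * E)) 1 hs0,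
    log_pow_small (2 * κ + 3) (1 / 50) (1000000 * ((κ : ℝ) + 1) / c₁ ^ (2 * κ)) (by norm_num),
    (t1.eventually_ge_atTop (1920 / c₁ ^ (2 * κ) + 10)), eventually_ge_atTop 10] with X e1 e2 e3 e4 e5 e6 e7 e8
  obtain ⟨ps, S, hps, hS, hbvs⟩ := hbv X e1
  obtain ⟨L, hL⟩ : ∃ L, L = Real.log X := ⟨_, rfl⟩
  obtain ⟨W, hW⟩ : ∃ W, W = WW X S ps := ⟨_, rfl⟩
  have hZz : z0 ≤ Z := by omega
  have hps2 : GoodP 2 ps := by
    rcases hps with h | ⟨h1, h2⟩
    · exact Or.inl h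
    · exact Or.inr ⟨h1, by omega⟩
  refine ⟨ps, S, hps2, hS, ?_⟩
  intro a ha Om hOm
  rw [← hL] at e3 e4 e5 e6 e7
  rw [← hW] at ha ⊢
  have hXr : (10 : ℝ) ≤ X := by exact_mod_cast e8
  have hX0 : (0 : ℝ) < X := by linarith
  have hX1 : (1 : ℝ) ≤ X := by linarith
  have hcp : 0 < c₁ ^ (2 * κ) := by positivity
  have hL10 : 10 ≤ L := by
    have : 0 ≤ 1920 / c₁ ^ (2 * κ) := by positivity
    linarith
  have hL0 : 0 < L := by linarith
  have hWpos : 0 < W := by rw [hW]; exact Pool.Agent.H378R2.WW_pos X S ps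
  have hWr : (0 : ℝ) < W := by exact_mod_cast hWpos
  have hφ0 : (0 : ℝ) < Nat.totient W := by exact_mod_cast Nat.totient_pos.2 hWpos
  have hWX : (W : ℝ) ≤ (X : ℝ) ^ (1 / 500 : ℝ) := by
    refine le_trans ?_ (Pool.Agent.H378R2.LSBV.primorial_yy_le X hX1)
    rw [hW]
    exact_mod_cast Nat.le_of_dvd (primorial_pos _) (Pool.Agent.H378R2.LSBV.WW_dvd_primorial X S ps)
  have hφW : (Nat.totient W : ℝ) ≤ W := by exact_mod_cast Nat.totient_le W
  -- the sieving level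
  obtain ⟨z, hz⟩ : ∃ z, z = ⌊(X : ℝ) ^ (1 / (200 * E) : ℝ)⌋₊ := ⟨_, rfl⟩
  have hXs1 : L ≤ (X : ℝ) ^ (1 / (200 * E) : ℝ) := by
    have := e5
    rw [one_mul, pow_one] at this
    exact this
  have hz2 : 2 ≤ z := by
    rw [hz]
    apply Nat.le_floor
    push_cast
    linarith
  have hzX : (z : ℝ) ≤ (X : ℝ) ^ (1 / (200 * E) : ℝ) := by rw [hz]; exact Nat.floor_le (by positivity)
  have hzX' : (X : ℝ) ^ (1 / (200 * E) : ℝ) < z + 1 := by rw [hz]; exact Nat.lt_floor_add_one _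
  obtain ⟨R, hR⟩ : ∃ R, R = 2 ^ 2 ^ JJ z := ⟨_, rfl⟩
  have hzR : z < R := by rw [hR]; exact JJ_lt z
  have hRz : R ≤ z ^ 2 := by rw [hR]; exact JJ_le z hz2
  have hzR' : (z : ℝ) + 1 ≤ R := by exact_mod_cast hzR
  have hRX : (R : ℝ) ^ E ≤ (X : ℝ) ^ (1 / 100 : ℝ) := by
    have h1 : (R : ℝ) ≤ (z : ℝ) ^ 2 := by exact_mod_cast hRz
    calc (R : ℝ) ^ E ≤ ((z : ℝ) ^ 2) ^ E := pow_le_pow_left₀ (Nat.cast_nonneg _) h1 _
      _ = (z : ℝ) ^ (2 * E) := by rw [← pow_mul]
      _ ≤ ((X : ℝ) ^ (1 / (200 * E) : ℝ)) ^ (2 * E) := pow_le_pow_left₀ (Nat.cast_nonneg _) hzX _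
      _ = (X : ℝ) ^ (1 / 100 : ℝ) := by
          rw [← Real.rpow_natCast, ← Real.rpow_mul hX0.le]
          congr 1
          push_cast
          field_simp
          norm_num
  have hR2 : 2 ≤ R := by omega
  have hRr : (2 : ℝ) ≤ R := by exact_mod_cast hR2
  have hRX1 : (R : ℝ) ≤ X := by
    calc (R : ℝ) = (R : ℝ) ^ 1 := (pow_one _).symm
      _ ≤ (R : ℝ) ^ E := pow_le_pow_right₀ (by linarith) hE1
      _ ≤ (X : ℝ) ^ (1 / 100 : ℝ) := hRX
      _ ≤ (X : ℝ) ^ (1 : ℝ) := Real.rpow_le_rpow_of_exponent_le hX1 (by norm_num)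
      _ = X := Real.rpow_one _
  have hlogR : L / (200 * E) ≤ Real.log R := by
    have h1 : (X : ℝ) ^ (1 / (200 * E) : ℝ) ≤ R := by linarith
    have h2 := Real.log_le_log (by positivity) h1
    rw [Real.log_rpow hX0, ← hL] at h2
    calc L / (200 * E) = 1 / (200 * E) * L := by ring
      _ ≤ _ := h2
  have hlogR2 : Real.log R ≤ L := by
    rw [hL]; exact Real.log_le_log (by linarith) hRX1
  have hlogR0 : 0 < Real.log R := Real.log_pos (by linarith)
  obtain ⟨hV1, hV2⟩ := hV R hR2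
  have hVR1 : c₁ / L ≤ V R := by
    rw [div_le_iff₀ hL0]
    calc c₁ ≤ V R * Real.log R := hV1
      _ ≤ V R * L := mul_le_mul_of_nonneg_left hlogR2 (V_pos R).le
  have hVR2 : V R ≤ c₂ * (200 * E) / L := by
    rw [le_div_iff₀ hL0]
    have h1 : V R * (L / (200 * E)) ≤ c₂ :=
      (mul_le_mul_of_nonneg_left hlogR (V_pos R).le).trans hV2
    rw [mul_div_assoc', div_le_iff₀ (by positivity)] at h1
    exact h1
  obtain ⟨J, hJ⟩ : ∃ J, J = JJ z := ⟨_, rfl⟩
  rw [← hJ] at hR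
  have hJL : (J : ℝ) + 2 ≤ 3 * L := by
    have h2 : Real.log ((2:ℝ) ^ 2 ^ J) ≤ L := by
      have : ((2:ℝ) ^ 2 ^ J) = R := by rw [hR]; push_cast; rfl
      rw [this]; exact hlogR2
    rw [Real.log_pow] at h2
    push_cast at h2
    have h3 : J + 1 ≤ 2 ^ J := Nat.lt_two_pow_self
    have h4 : ((J:ℝ) + 1) ≤ 2 ^ J := by exact_mod_cast h3
    have h5 := Real.log_two_gt_d9
    nlinarith
  -- the sifting primes
  obtain ⟨P, hP⟩ : ∃ P, P = (Pz R).filter (fun p => ¬ p ∣ W ∧ p ≠ ps) := ⟨_, rfl⟩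
  have hPmem : ∀ p ∈ P, p.Prime ∧ ¬ p ∣ W ∧ p ≠ ps ∧ z0 < p ∧ p ≤ R := by
    intro p hp
    rw [hP, mem_filter, mem_Pz] at hp
    obtain ⟨⟨h1, h2⟩, h3, h4⟩ := hp
    refine ⟨h1, h3, h4, ?_, h2⟩
    by_contra hcon
    push Not at hcon
    apply h3
    rw [hW]
    have hpyy : p ≤ yy X := by
      have h5 : (z0 : ℝ) ≤ L / 1000 := by
        rw [le_div_iff₀ (by norm_num)]
        linarith
      have h6 : z0 ≤ yy X := by
        unfold yy
        apply Nat.le_floor
        rw [← hL]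
        exact h5
      omega
    unfold WW
    apply dvd_prod_of_mem (fun p => p)
    rw [mem_PW]
    refine ⟨hpyy, h1, ?_, h4⟩
    intro hpS
    have h7 := (hS.1 p hpS).2.1
    have h8 : z0 < z2 X := by
      unfold z2
      apply Nat.lt_ceil.2
      rw [← hL]
      have : (1 : ℝ) ≤ Real.log L := by
        have : (0 : ℝ) ≤ z0 := Nat.cast_nonneg _
        linarith
      calc (z0 : ℝ) < Real.log L := by linarith
        _ = (Real.log L) ^ 1 := (pow_one _).symm
        _ ≤ (Real.log L) ^ 3 := pow_le_pow_right₀ this (by norm_num)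
    omega
  obtain ⟨G, hG⟩ : ∃ G : ℝ, G = ∏ p ∈ P, (1 - ((Om p).card : ℝ) / ((p : ℝ) - 1)) := ⟨_, rfl⟩
  have hGlow : (c₁ / L) ^ (2 * κ) ≤ G := by
    refine (pow_le_pow_left₀ (by positivity) hVR1 _).trans ?_
    rw [hG]
    apply G_low κ R P
    · intro p hp
      obtain ⟨h1, _, _, h4, h5⟩ := hPmem p hp
      exact ⟨h1, by omega, h5⟩
    · intro p hp
      exact (hOm p (hPmem p hp).1).1
  have hG0 : 0 < G := lt_of_lt_of_le (by positivity) hGlow
  have hN : ⌊3 * (X : ℝ)⌋₊ = 3 * X := by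
    have : (3 * (X : ℝ)) = ((3 * X : ℕ) : ℝ) := by push_cast; ring
    rw [this, Nat.floor_natCast]
  -- the sifted sum
  obtain ⟨Er, hEr'⟩ : ∃ Er : ℝ, Er = X / ((Nat.totient W : ℝ) * L ^ (2 * κ + 3)) := ⟨_, rfl⟩
  have hpp := prime_part hC (κ := κ) (b := b) (by omega) X W J hWpos P
    (by
      intro p hp
      obtain ⟨h1, h2, _, h4, h5⟩ := hPmem p hp
      refine ⟨h1, h2, by omega, by rw [← hR]; exact h5⟩) a ha Om
    (fun p hp => hOm p (hPmem p hp).1) Er
    (by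
      intro bm hbm
      have h1 := hbvs ((2 ^ 2 ^ J) ^ (C * b)) (by
        rw [← hR]
        push_cast
        refine le_trans ?_ hRX
        exact pow_le_pow_right₀ (by linarith) hCbE) P (by
        intro p hp
        obtain ⟨h1, h2, h3, _⟩ := hPmem p hp
        exact ⟨h1, by rw [← hW]; exact h2, h3⟩) bm (by rw [← hW]; exact hbm)
      rw [← hW, ← hL] at h1
      rw [hEr']
      exact h1)
  rw [← hG, hN] at hpp
  obtain ⟨S1, hS1⟩ : ∃ S1, S1 = ((Icc 1 (3 * X)).filter (fun n => n % W = a % W)).filter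
        (fun n => ∀ p ∈ P, n % p ∉ Om p) := ⟨_, rfl⟩
  rw [← hS1] at hpp
  have hLPhi : (X : ℝ) / 40 ≤ LPhi X := by
    obtain ⟨h1, h2⟩ := e2
    have h3 := (abs_le.1 h1).1
    linarith
  obtain ⟨m, hm⟩ : ∃ m : ℝ, m = X / 40 / Nat.totient W * G := ⟨_, rfl⟩
  have hm0 : 0 < m := by rw [hm]; positivity
  have hMm : m ≤ LPhi X / Nat.totient W * G := by
    rw [hm]
    apply mul_le_mul_of_nonneg_right _ hG0.le
    exact div_le_div_of_nonneg_right hLPhi hφ0.le
  have hb4 : (1 / 2 : ℝ) ^ b ≤ 1 / 4 := by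
    calc (1 / 2 : ℝ) ^ b ≤ (1 / 2 : ℝ) ^ 2 :=
          pow_le_pow_of_le_one (by norm_num) (by norm_num) (by omega)
      _ = 1 / 4 := by norm_num
  have hErr1 : ((J : ℝ) + 2) * Er ≤ m / 16 := by
    have h1 : ((J : ℝ) + 2) * Er ≤ 3 * L * Er := by
      apply mul_le_mul_of_nonneg_right hJL
      rw [hEr']; positivity
    refine h1.trans ?_
    have h2 : X / 40 / Nat.totient W * (c₁ / L) ^ (2 * κ) ≤ m := by
      rw [hm]
      exact mul_le_mul_of_nonneg_left hGlow (by positivity)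
    refine le_trans ?_ (div_le_div_of_nonneg_right h2 (by norm_num : (0:ℝ) ≤ 16))
    rw [hEr', div_pow]
    have h3 : 1920 ≤ c₁ ^ (2 * κ) * L ^ 2 := by
      have h4 : 1920 / c₁ ^ (2 * κ) ≤ L := by linarith
      rw [div_le_iff₀ hcp] at h4
      nlinarith
    have e : 3 * L * (X / (Nat.totient W * L ^ (2 * κ + 3))) =
        X / Nat.totient W / L ^ (2 * κ) * (3 / L ^ 2) := by
      rw [pow_add]
      field_simp
    have e' : X / 40 / Nat.totient W * (c₁ ^ (2 * κ) / L ^ (2 * κ)) / 16 =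
        X / Nat.totient W / L ^ (2 * κ) * (c₁ ^ (2 * κ) / 640) := by
      field_simp
      ring
    rw [e, e']
    apply mul_le_mul_of_nonneg_left _ (by positivity)
    rw [div_le_div_iff₀ (by positivity) (by norm_num)]
    linarith
  have hB1 : (3 / 4) * m - m / 16 ≤ ∑ n ∈ S1, Phi (n / X) * ArithmeticFunction.vonMangoldt n := by
    have h1 := (abs_le.1 hpp).1
    have h2 : (1 / 2 : ℝ) ^ b * (LPhi X / Nat.totient W * G) ≤ 1 / 4 * (LPhi X / Nat.totient W * G) :=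
      mul_le_mul_of_nonneg_right hb4 (by linarith)
    linarith
  -- splitting
  obtain ⟨Gd, hGd⟩ : ∃ Gd, Gd = (Icc 1 (3 * X)).filter (fun n => n.Prime ∧ X < n ∧
      n % W = a % W ∧ ∀ p : ℕ, p.Prime → (p : ℝ) ≤ (X : ℝ) ^ (1 / ((200 * E : ℕ) : ℝ)) →
        ¬ p ∣ W → n % p ∉ Om p) := ⟨_, rfl⟩
  obtain ⟨Bad, hBad⟩ : ∃ Bad, Bad = S1.filter (fun n => n.Prime ∧ X < n ∧ ps.Prime ∧ ps ≤ R ∧
      n % ps ∈ Om ps) := ⟨_, rfl⟩
  obtain ⟨LL, hLL⟩ : ∃ LL, LL = Real.log ((3 * X : ℕ) : ℝ) := ⟨_, rfl⟩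
  have hLL2 : LL ≤ 2 * L := by
    rw [hLL]
    push_cast
    rw [Real.log_mul (by norm_num) hX0.ne', ← hL]
    have : Real.log 3 ≤ 3 - 1 := Real.log_le_sub_one_of_pos (by norm_num)
    linarith
  have hLL0 : 0 < LL := by
    rw [hLL]
    apply Real.log_pos
    push_cast
    linarith
  have hterm : ∀ n ∈ S1, Phi (n / X) * ArithmeticFunction.vonMangoldt n ≤
      (if n ∈ Gd then LL else 0) + (if n ∈ Bad then LL else 0) +
        (if ¬ n.Prime then ArithmeticFunction.vonMangoldt n else 0) := by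
    intro n hn
    have hn' := hn
    rw [hS1, mem_filter, mem_filter, mem_Icc] at hn'
    obtain ⟨⟨⟨hn1, hn2⟩, hn3⟩, hn4⟩ := hn'
    have hΛ := ArithmeticFunction.vonMangoldt_nonneg (n := n)
    have hPhi1 : Phi (n / X) ≤ 1 := Pool.Agent.H378R2.Phi_le_one _
    have i1 : 0 ≤ (if n ∈ Gd then LL else 0) := by split_ifs <;> linarith
    have i2 : 0 ≤ (if n ∈ Bad then LL else 0) := by split_ifs <;> linarith
    have i3 : 0 ≤ (if ¬ n.Prime then ArithmeticFunction.vonMangoldt n else 0) := by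
      split_ifs <;> linarith
    rcases Nat.lt_or_ge X n with hXn | hXn
    · by_cases hpr : n.Prime
      · have h1 : ArithmeticFunction.vonMangoldt n ≤ LL := by
          rw [ArithmeticFunction.vonMangoldt_apply_prime hpr, hLL]
          apply Real.log_le_log (by exact_mod_cast hpr.pos)
          exact_mod_cast hn2
        have h2 : Phi (n / X) * ArithmeticFunction.vonMangoldt n ≤ LL := by
          have := mul_le_mul_of_nonneg_right hPhi1 hΛ
          linarith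
        by_cases hbad : n ∈ Bad
        · rw [if_pos hbad] at i2 ⊢
          linarith
        · have hgd : n ∈ Gd := by
            rw [hGd, mem_filter, mem_Icc]
            refine ⟨⟨hn1, hn2⟩, hpr, hXn, hn3, ?_⟩
            intro p hp hpX hpW
            have hpz : p ≤ z := by
              rw [hz]
              apply Nat.le_floor
              refine hpX.trans (le_of_eq ?_)
              push_cast
              rfl
            by_cases hpps : p = ps
            · intro hmem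
              apply hbad
              rw [hBad, mem_filter]
              refine ⟨hn, hpr, hXn, hpps ▸ hp, ?_, hpps ▸ hmem⟩
              rw [← hpps]; omega
            · apply hn4
              rw [hP, mem_filter, mem_Pz]
              exact ⟨⟨hp, by omega⟩, hpW, hpps⟩
          rw [if_pos hgd] at i1 ⊢
          linarith
      · have h2 : Phi (n / X) * ArithmeticFunction.vonMangoldt n ≤ ArithmeticFunction.vonMangoldt n := by
          have := mul_le_mul_of_nonneg_right hPhi1 hΛ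
          linarith
        rw [if_pos hpr] at i3 ⊢
        linarith
    · have h1 : Phi (n / X) = 0 := by
        apply Pool.Agent.H378R2.Phi_eq_zero_of_le (by positivity)
        rw [div_le_one hX0]
        exact_mod_cast hXn
      rw [h1, zero_mul]
      linarith
  have hsplit : ∑ n ∈ S1, Phi (n / X) * ArithmeticFunction.vonMangoldt n ≤
      LL * Gd.card + LL * Bad.card + 2 * Real.sqrt ((3 * X : ℕ) : ℝ) * LL := by
    refine (sum_le_sum hterm).trans ?_
    rw [sum_add_distrib, sum_add_distrib]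
    have s1 : ∑ n ∈ S1, (if n ∈ Gd then LL else 0) ≤ LL * Gd.card := by
      rw [← sum_filter, sum_const, nsmul_eq_mul, mul_comm]
      apply mul_le_mul_of_nonneg_left _ hLL0.le
      apply Nat.cast_le.2
      apply card_le_card
      intro n hn
      exact (mem_filter.1 hn).2
    have s2 : ∑ n ∈ S1, (if n ∈ Bad then LL else 0) ≤ LL * Bad.card := by
      rw [← sum_filter, sum_const, nsmul_eq_mul, mul_comm]
      apply mul_le_mul_of_nonneg_left _ hLL0.le
      apply Nat.cast_le.2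
      apply card_le_card
      intro n hn
      exact (mem_filter.1 hn).2
    have s3 : ∑ n ∈ S1, (if ¬ n.Prime then ArithmeticFunction.vonMangoldt n else 0) ≤
        2 * Real.sqrt ((3 * X : ℕ) : ℝ) * LL := by
      have h1 := Chebyshev.psi_sub_theta_le (x := ((3 * X : ℕ) : ℝ)) (by push_cast; linarith)
      rw [Chebyshev.psi_sub_theta_eq_sum_not_prime, Nat.floor_natCast] at h1
      rw [hLL]
      refine le_trans ?_ h1
      rw [← sum_filter]
      apply sum_le_sum_of_subset_of_nonneg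
      · intro n hn
        rw [mem_filter, hS1, mem_filter, mem_filter, mem_Icc] at hn
        rw [mem_filter, mem_Ioc]
        exact ⟨⟨by omega, hn.1.1.1.2⟩, hn.2⟩
      · intro n _ _
        exact ArithmeticFunction.vonMangoldt_nonneg
    linarith
  -- the exceptional prime
  have hBadc : LL * Bad.card ≤ m / 4 + LL * (κ * (3 * L * (X : ℝ) ^ (1 / 100 : ℝ))) := by
    have hX100 : 0 ≤ (X : ℝ) ^ (1 / 100 : ℝ) := by positivity
    by_cases hcase : ps.Prime ∧ ps ≤ R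
    · obtain ⟨hpsp, hpsR⟩ := hcase
      have hpsZ : Z < ps := by
        rcases hps with h | h
        · rw [h] at hpsp; exact absurd hpsp Nat.not_prime_one
        · exact h.2
      have hpsW : ¬ ps ∣ W := by
        rw [hW]
        unfold WW
        rw [hpsp.prime.dvd_finset_prod_iff]
        rintro ⟨q, hq, hd⟩
        obtain ⟨_, hq2, _, hq4⟩ := mem_PW.1 hq
        exact hq4 ((Nat.prime_dvd_prime_iff_eq hpsp hq2).1 hd).symm
      have h1 := bad_card hC (κ := κ) (b := b) (A' := κ + 1) hbC (by omega)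
        (by
          have := Nat.lt_two_pow_self (n := κ + 1)
          omega) (3 * X) W J ps a hWpos hpsp hpsW P
        (by
          intro p hp
          obtain ⟨g1, g2, g3, g4, g5⟩ := hPmem p hp
          exact ⟨g1, g2, g3, by omega, by rw [← hR]; exact g5⟩) Om hOm
        (by
          intro p hp
          obtain ⟨g1, g2, g3, g4, g5⟩ := hPmem p hp
          have : κ + 1 ≤ p := by omega
          exact_mod_cast this) Bad
        (by
          intro n hn
          rw [hBad, mem_filter, hS1, mem_filter, mem_filter] at hn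
          obtain ⟨⟨⟨g1, g2⟩, g3⟩, g4, g5, _, _, g8⟩ := hn
          refine ⟨g1, g2, g8, fun p hp => ⟨g3 p hp, ?_⟩⟩
          intro h0
          have hd := (Nat.prime_dvd_prime_iff_eq (hPmem p hp).1 g4).1 (Nat.dvd_of_mod_eq_zero h0)
          have hpR := (hPmem p hp).2.2.2.2
          have hRX' : R ≤ X := by exact_mod_cast hRX1
          omega)
      rw [← hG, ← hR] at h1
      obtain ⟨VP, hVP⟩ : ∃ VP : ℝ, VP = ∏ p ∈ P, (1 - 1 / (p : ℝ)) := ⟨_, rfl⟩
      rw [← hVP] at h1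
      have hVPle : (Nat.totient W : ℝ) / W * VP ≤ 2 * V R := by
        rw [hVP]
        apply VP_le W R ps hWpos _ hpsp P hP
        intro p hp
        rw [hW, Pool.Agent.H378R2.WW_primeFactors, mem_PW] at hp
        have h2 : (yy X : ℝ) ≤ L / 1000 := by
          unfold yy
          rw [← hL]
          exact Nat.floor_le (by positivity)
        have h3 : (yy X : ℝ) ≤ R := by linarith
        have h4 : yy X ≤ R := by exact_mod_cast h3
        omega
      have hVP0 : 0 ≤ VP := by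
        rw [hVP]
        exact prod_nonneg fun p hp => (one_sub_inv_pos (hPmem p hp).1).le
      have hps0 : (0 : ℝ) < ps := by exact_mod_cast hpsp.pos
      have hVPW : VP / W ≤ 2 * (c₂ * (200 * E) / L) / Nat.totient W := by
        rw [div_le_div_iff₀ hWr hφ0]
        have h2 : (Nat.totient W : ℝ) / W * VP ≤ 2 * (c₂ * (200 * E) / L) := hVPle.trans (by linarith)
        rw [div_mul_eq_mul_div, div_le_iff₀ hWr] at h2
        linarith
      have hmain : LL * (κ * (5 / 4 * (((3 * X : ℕ) : ℝ) / (W * ps) * (VP * G)))) ≤ m / 4 := by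
        have h2 : ((3 * X : ℕ) : ℝ) / (W * ps) * (VP * G) = 3 * X * G / ps * (VP / W) := by
          push_cast
          field_simp
        rw [h2]
        have h3 : LL * (κ * (5 / 4 * (3 * X * G / ps * (VP / W)))) ≤
            2 * L * (κ * (5 / 4 * (3 * X * G / ps * (2 * (c₂ * (200 * E) / L) / Nat.totient W)))) := by
          gcongr
        refine h3.trans ?_
        have h4 : 2 * L * (κ * (5 / 4 * (3 * X * G / ps * (2 * (c₂ * (200 * E) / L) / Nat.totient W)))) =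
            (3000 * κ * c₂ * E / ps) * (X * G / Nat.totient W) := by
          field_simp
          ring
        have h5 : m / 4 = (1 / 160) * (X * G / Nat.totient W) := by
          rw [hm]
          field_simp
          ring
        rw [h4, h5]
        apply mul_le_mul_of_nonneg_right _ (by positivity)
        rw [div_le_div_iff₀ hps0 (by norm_num)]
        have h6 : 960000 * (κ : ℝ) * c₂ * E ≤ ps := by
          have h7 : ⌈960000 * (κ : ℝ) * c₂ * E⌉₊ ≤ ps := by omega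
          exact (Nat.le_ceil _).trans (by exact_mod_cast h7)
        have h8 : 0 ≤ (κ : ℝ) * c₂ * E := by positivity
        nlinarith
      have herr : LL * (κ * (((J : ℝ) + 2) * ((R ^ (C * b) : ℕ) : ℝ) ^ (κ + 1 + 1))) ≤
          LL * (κ * (3 * L * (X : ℝ) ^ (1 / 100 : ℝ))) := by
        have h2 : ((R ^ (C * b) : ℕ) : ℝ) ^ (κ + 1 + 1) = (R : ℝ) ^ E := by
          push_cast
          rw [← pow_mul, hE]
        rw [h2]
        gcongr
      calc LL * Bad.card ≤ LL * (κ * (5 / 4 * (((3 * X : ℕ) : ℝ) / (W * ps) * (VP * G)) +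
            ((J : ℝ) + 2) * ((R ^ (C * b) : ℕ) : ℝ) ^ (κ + 1 + 1))) :=
            mul_le_mul_of_nonneg_left h1 hLL0.le
        _ = LL * (κ * (5 / 4 * (((3 * X : ℕ) : ℝ) / (W * ps) * (VP * G)))) +
            LL * (κ * (((J : ℝ) + 2) * ((R ^ (C * b) : ℕ) : ℝ) ^ (κ + 1 + 1))) := by ring
        _ ≤ _ := add_le_add hmain herr
    · have h1 : Bad = ∅ := by
        rw [hBad, filter_eq_empty_iff]
        rintro n _ ⟨_, _, h2, h3, _⟩
        exact hcase ⟨h2, h3⟩
      rw [h1, card_empty, Nat.cast_zero, mul_zero]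
      positivity
  -- comparison of the small terms
  have hLpow : 1000000 * ((κ : ℝ) + 1) * L ^ (2 * κ + 3) ≤ c₁ ^ (2 * κ) * (X : ℝ) ^ (1 / 50 : ℝ) := by
    have h1 := e6
    rw [div_mul_eq_mul_div, div_le_iff₀ hcp] at h1
    linarith
  have hXpow : ∀ s t : ℝ, (X : ℝ) ^ s * (X : ℝ) ^ t = (X : ℝ) ^ (s + t) := fun s t =>
    (Real.rpow_add hX0 s t).symm
  have hmlow : c₁ ^ (2 * κ) * (X : ℝ) ^ (499 / 500 : ℝ) / (40 * L ^ (2 * κ)) ≤ m := by
    have h1 : X / 40 / Nat.totient W * (c₁ / L) ^ (2 * κ) ≤ m := by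
      rw [hm]
      exact mul_le_mul_of_nonneg_left hGlow (by positivity)
    refine le_trans ?_ h1
    rw [div_pow]
    have h2 : (X : ℝ) ^ (499 / 500 : ℝ) ≤ X / Nat.totient W := by
      rw [le_div_iff₀ hφ0]
      calc (X : ℝ) ^ (499 / 500 : ℝ) * Nat.totient W ≤ (X : ℝ) ^ (499 / 500 : ℝ) * (X : ℝ) ^ (1 / 500 : ℝ) := by
            apply mul_le_mul_of_nonneg_left (hφW.trans hWX) (by positivity)
        _ = X := by
            rw [hXpow]
            norm_num
    calc c₁ ^ (2 * κ) * (X : ℝ) ^ (499 / 500 : ℝ) / (40 * L ^ (2 * κ))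
        ≤ c₁ ^ (2 * κ) * (X / Nat.totient W) / (40 * L ^ (2 * κ)) := by gcongr
      _ = _ := by field_simp
  have hLL1 : 1 ≤ L := by linarith
  have hsmall : ∀ (D s : ℝ), 0 ≤ D → D ≤ 1000 * ((κ : ℝ) + 1) → s ≤ 95 / 100 →
      D * L ^ 3 * (X : ℝ) ^ s ≤ m / 4 := by
    intro D s hD0 hD hs
    refine le_trans ?_ (div_le_div_of_nonneg_right hmlow (by norm_num : (0:ℝ) ≤ 4))
    rw [div_div, le_div_iff₀ (by positivity)]
    have h1 : (X : ℝ) ^ (1 / 50 : ℝ) * (X : ℝ) ^ s ≤ (X : ℝ) ^ (499 / 500 : ℝ) := by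
      rw [hXpow]
      apply Real.rpow_le_rpow_of_exponent_le hX1
      linarith
    calc D * L ^ 3 * (X : ℝ) ^ s * (40 * L ^ (2 * κ) * 4)
        = (160 * D * L ^ (2 * κ + 3)) * (X : ℝ) ^ s := by rw [pow_add]; ring
      _ ≤ (c₁ ^ (2 * κ) * (X : ℝ) ^ (1 / 50 : ℝ)) * (X : ℝ) ^ s := by
          apply mul_le_mul_of_nonneg_right _ (by positivity)
          have h2 : 160 * D * L ^ (2 * κ + 3) ≤ 1000000 * ((κ : ℝ) + 1) * L ^ (2 * κ + 3) := by
            apply mul_le_mul_of_nonneg_right _ (by positivity)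
            have : (0 : ℝ) ≤ κ := Nat.cast_nonneg _
            linarith
          linarith
      _ = c₁ ^ (2 * κ) * ((X : ℝ) ^ (1 / 50 : ℝ) * (X : ℝ) ^ s) := by ring
      _ ≤ c₁ ^ (2 * κ) * (X : ℝ) ^ (499 / 500 : ℝ) := by gcongr
  have hκ0 : (0 : ℝ) ≤ κ := Nat.cast_nonneg _
  have hE2 : LL * (κ * (3 * L * (X : ℝ) ^ (1 / 100 : ℝ))) ≤ m / 16 := by
    have h1 := hsmall (24 * ((κ : ℝ) + 1)) (1 / 100) (by positivity) (by linarith) (by norm_num)
    have h2 : LL * (κ * (3 * L * (X : ℝ) ^ (1 / 100 : ℝ))) ≤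
        (2 * L) * ((κ + 1) * (3 * L * (X : ℝ) ^ (1 / 100 : ℝ))) := by
      gcongr
      linarith
    have h3 : (2 * L) * ((κ + 1) * (3 * L * (X : ℝ) ^ (1 / 100 : ℝ))) ≤
        6 * (κ + 1) * L ^ 3 * (X : ℝ) ^ (1 / 100 : ℝ) := by
      have h4 : L ^ 2 ≤ L ^ 3 := pow_le_pow_right₀ hLL1 (by norm_num)
      calc (2 * L) * ((κ + 1) * (3 * L * (X : ℝ) ^ (1 / 100 : ℝ))) =
          6 * (κ + 1) * L ^ 2 * (X : ℝ) ^ (1 / 100 : ℝ) := by ring
        _ ≤ _ := by gcongr
    linarith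
  have hE3 : 2 * Real.sqrt ((3 * X : ℕ) : ℝ) * LL ≤ m / 16 := by
    have h1 := hsmall 32 (1 / 2) (by norm_num) (by linarith) (by norm_num)
    have h2 : Real.sqrt ((3 * X : ℕ) : ℝ) ≤ 2 * (X : ℝ) ^ (1 / 2 : ℝ) := by
      rw [← Real.sqrt_eq_rpow]
      rw [Real.sqrt_le_left (by positivity), mul_pow, Real.sq_sqrt hX0.le]
      push_cast
      linarith
    have h3 : 2 * Real.sqrt ((3 * X : ℕ) : ℝ) * LL ≤ 2 * (2 * (X : ℝ) ^ (1 / 2 : ℝ)) * (2 * L) := by
      gcongr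
    have h4 : L * (X : ℝ) ^ (1 / 2 : ℝ) ≤ L ^ 3 * (X : ℝ) ^ (1 / 2 : ℝ) := by
      apply mul_le_mul_of_nonneg_right _ (by positivity)
      calc L = L ^ 1 := (pow_one _).symm
        _ ≤ L ^ 3 := pow_le_pow_right₀ hLL1 (by norm_num)
    linarith
  have hfin : m / 4 ≤ LL * Gd.card := by linarith
  rw [← hGd]
  have h9 := hsmall 2 (9 / 10) (by norm_num) (by linarith) (by norm_num)
  have h10 : (X : ℝ) ^ (9 / 10 : ℝ) * LL ≤ Gd.card * LL := by
    have h4 : L * (X : ℝ) ^ (9 / 10 : ℝ) ≤ L ^ 3 * (X : ℝ) ^ (9 / 10 : ℝ) := by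
      apply mul_le_mul_of_nonneg_right _ (by positivity)
      calc L = L ^ 1 := (pow_one _).symm
        _ ≤ L ^ 3 := pow_le_pow_right₀ hLL1 (by norm_num)
    have h5 : (X : ℝ) ^ (9 / 10 : ℝ) * LL ≤ (X : ℝ) ^ (9 / 10 : ℝ) * (2 * L) := by gcongr
    linarith
  exact le_of_mul_le_mul_right h10 hLL0

end Pool.Agent.Y175.RC
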