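import Pool.Agent.Y175.RC.CovB
import Pool.Agent.Y175.RC.SieC

set_option autoImplicit false
set_option maxHeartbeats 4000000

/-!
# Every admissible pattern in a window of Rankin's size, with one prime and all other points almost prime

Author: helper175.
-/

namespace Pool.Agent.Y175.RC

open Finset Filter
open Pool.Agent.H378R2 (WW PW yy z2 GoodP GoodS mem_PW)

/-- The positions `h j` miss a residue class modulo every prime. -/
def Adm {K : ℕ} (h : Fin K → ℕ) : Prop := ∀ p : ℕ, p.Prime → ∃ u : ℕ, ∀ j, ¬ p ∣ u + h j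

/-- `m` has at most `r` prime factors (with multiplicity), all of them larger than `X ^ (1 / r)`. -/
def Alm (r X m : ℕ) : Prop :=
  m.primeFactorsList.length ≤ r ∧ ∀ p : ℕ, p.Prime → p ∣ m → (X : ℝ) ^ (1 / (r : ℝ)) < p

lemma rk_nonneg : ∀ᶠ X : ℝ in atTop, 0 ≤ rk X ∧ 2 * rk X ≤ X := by
  have t1 := Real.tendsto_log_atTop
  have t2 : Tendsto (fun y : ℝ => Real.log (Real.log y)) atTop atTop := t1.comp t1
  have t3 : Tendsto (fun y : ℝ => Real.log (Real.log (Real.log y))) atTop atTop := t1.comp t2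
  have t4 : Tendsto (fun y : ℝ => Real.log (Real.log (Real.log (Real.log y)))) atTop atTop :=
    t1.comp t3
  have hlog : ∀ᶠ t : ℝ in atTop, 2 * (Real.log t) ^ 2 ≤ t := by
    have h1 := (Real.isLittleO_pow_log_id_atTop (n := 2)).bound (show (0 : ℝ) < 1 / 2 by norm_num)
    filter_upwards [h1, eventually_ge_atTop 0] with t ht ht0
    simp only [id, Real.norm_eq_abs] at ht
    rw [abs_of_nonneg ht0] at ht
    have := (le_abs_self _).trans ht
    linarith
  filter_upwards [t1.eventually_ge_atTop 1, t2.eventually_ge_atTop 1, t3.eventually_ge_atTop 1,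
    t4.eventually_ge_atTop 1, hlog, eventually_ge_atTop 1] with X h1 h2 h3 h4 h5 h6
  have hT := h1
  set T := Real.log X
  set A := Real.log T
  set B := Real.log A
  set D := Real.log B
  have hrk : rk X = T * A * D / B ^ 2 := rfl
  have hD : D ≤ B ^ 2 := by
    have : D ≤ B - 1 := Real.log_le_sub_one_of_pos (by linarith)
    nlinarith
  have hA : A ≤ T := by
    have : A ≤ T - 1 := Real.log_le_sub_one_of_pos (by linarith)
    linarith
  rw [hrk]
  refine ⟨by positivity, ?_⟩
  rw [mul_div_assoc', div_le_iff₀ (by positivity)]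
  have e1 : T * A ≤ T ^ 2 := by nlinarith
  calc 2 * (T * A * D) ≤ 2 * (T ^ 2 * B ^ 2) := by gcongr
    _ = (2 * T ^ 2) * B ^ 2 := by ring
    _ ≤ X * B ^ 2 := mul_le_mul_of_nonneg_right h5 (by positivity)

open Classical in
/-- **Main theorem.** -/
theorem main (K : ℕ) : ∃ (r : ℕ) (c : ℝ), 1 ≤ r ∧ 0 < c ∧ c ≤ 1 ∧ ∀ᶠ X : ℕ in atTop,
    ∀ h : Fin K → ℕ, Adm h → (∀ j, (h j : ℝ) ≤ c * rk X) → ∀ j₀ : Fin K,
      (X : ℝ) ^ (9 / 10 : ℝ) ≤ (((Icc 1 (3 * X)).filter (fun n => (n + h j₀).Prime ∧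
        X < n + h j₀ ∧ n + h j₀ ≤ 3 * X ∧ (∀ j, Alm r X (n + h j)) ∧
        ∀ m : ℕ, (m : ℝ) ≤ c * rk X → (∀ j, m ≠ h j) →
          ∃ p : ℕ, p.Prime ∧ (p : ℝ) ≤ Real.log X ∧ p ∣ n + m)).card : ℝ) := by
  obtain ⟨r₁, hr₁, hcount⟩ := count K
  obtain ⟨c, hc, hc1, hcov⟩ := cover K
  have hr₁r : (1 : ℝ) ≤ r₁ := by exact_mod_cast hr₁
  refine ⟨r₁, c, hr₁, hc, hc1, ?_⟩
  have tX := tendsto_natCast_atTop_atTop (R := ℝ)
  have t1 : Tendsto (fun X : ℕ => Real.log X) atTop atTop := Real.tendsto_log_atTop.comp tX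
  filter_upwards [hcount, tX.eventually hcov, tX.eventually rk_nonneg,
    t1.eventually_ge_atTop (2 * (r₁ : ℝ) + 2), eventually_ge_atTop 2] with X h1 h2 h3 h4 h5
  intro h hadm hh j₀
  obtain ⟨ps, S, hps, hS, hcnt⟩ := h1
  obtain ⟨hrk0, hrkX⟩ := h3
  have hX0 : (0 : ℝ) < X := by exact_mod_cast (by omega : 0 < X)
  have hX1 : (1 : ℝ) ≤ X := by exact_mod_cast (by omega : 1 ≤ X)
  have hL0 : 0 < Real.log X := by linarith
  choose u hu using hadm
  obtain ⟨a, ha1, ha2⟩ := h2 ps S hps hS h (fun p => if hp : p.Prime then u p hp else 0)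
    (by
      intro p hp _ j
      simp only [dif_pos hp]
      exact hu p hp j) hh
  obtain ⟨W, hW⟩ : ∃ W, W = WW X S ps := ⟨_, rfl⟩
  rw [← hW] at ha1
  have hWprimes : ∀ p : ℕ, p.Prime → p ∣ W → p ∈ PW X S ps := by
    intro p hp hd
    rw [hW] at hd
    unfold WW at hd
    rw [hp.prime.dvd_finset_prod_iff] at hd
    obtain ⟨q, hq, hd⟩ := hd
    rwa [(Nat.prime_dvd_prime_iff_eq hp (mem_PW.1 hq).2.1).1 hd]
  have hdvdW : ∀ p ∈ PW X S ps, p ∣ W := by
    intro p hp
    rw [hW]
    exact dvd_prod_of_mem (fun p => p) hp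
  -- the classes
  obtain ⟨Om, hOmd⟩ : ∃ Om : ℕ → Finset ℕ, Om = fun p => (range p).filter (fun c : ℕ => c ≠ 0 ∧
      ∃ j, (p : ℤ) ∣ (c : ℤ) + h j - h j₀) := ⟨_, rfl⟩
  have hOm : ∀ p, p.Prime → (Om p).card ≤ K ∧ 0 ∉ Om p ∧ ∀ c ∈ Om p, c < p := by
    intro p hp
    refine ⟨?_, ?_, ?_⟩
    · have hsub : Om p ⊆ (univ : Finset (Fin K)).image
          (fun j => (((h j₀ : ℤ) - h j) % (p : ℤ)).toNat) := by
        intro c hc
        rw [hOmd] at hc
        simp only [mem_filter, mem_range] at hc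
        obtain ⟨hcp, _, j, hj⟩ := hc
        rw [mem_image]
        refine ⟨j, mem_univ _, ?_⟩
        have hp0 : (p : ℤ) ≠ 0 := by exact_mod_cast hp.ne_zero
        have e1 : ((h j₀ : ℤ) - h j) % (p : ℤ) = (c : ℤ) % p := by
          apply Int.emod_emod_of_dvd _ (dvd_refl (p : ℤ)) |>.symm.trans
          rw [Int.emod_emod_of_dvd _ (dvd_refl (p : ℤ))]
          apply Int.ModEq.symm
          rw [Int.modEq_iff_dvd]
          have e2 : (h j₀ : ℤ) - h j - c = -((c : ℤ) + h j - h j₀) := by ring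
          rw [e2]
          exact (dvd_neg.2 hj)
        rw [e1, Int.emod_eq_of_lt (by positivity) (by exact_mod_cast hcp)]
        simp
      refine (card_le_card hsub).trans (card_image_le.trans ?_)
      simp
    · rw [hOmd]
      simp
    · intro c hc
      rw [hOmd] at hc
      simp only [mem_filter, mem_range] at hc
      exact hc.1
  have hkey := hcnt (a + h j₀) (by rw [← hW]; exact ha1 j₀) Om hOm
  refine hkey.trans ?_
  apply Nat.cast_le.2
  have hh0 : h j₀ < X := by
    have e1 : (h j₀ : ℝ) ≤ X := by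
      have := hh j₀
      nlinarith
    have e2 : h j₀ ≤ X := by exact_mod_cast e1
    rcases Nat.lt_or_ge (h j₀) X with e3 | e3
    · exact e3
    · exfalso
      have e4 : h j₀ = X := le_antisymm e2 e3
      have e5 := hh j₀
      rw [e4] at e5
      nlinarith
  apply card_le_card_of_injOn (fun ν => ν - h j₀)
  · intro ν hν
    simp only [coe_filter, mem_Icc, Set.mem_ofPred_eq] at hν ⊢
    obtain ⟨⟨hν1, hν2⟩, hνp, hXν, hνW, hνs⟩ := hν
    have hνh : ν - h j₀ + h j₀ = ν := by omega
    obtain ⟨n, hn⟩ : ∃ n, n = ν - h j₀ := ⟨_, rfl⟩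
    rw [← hn] at hνh ⊢
    have hnmod : ∀ p : ℕ, p ∣ W → n ≡ a [MOD p] := by
      intro p hp
      have e1 : n + h j₀ ≡ a + h j₀ [MOD W] := by rw [hνh]; rw [← hW] at hνW; exact hνW
      exact (Nat.ModEq.add_right_cancel' _ e1).of_dvd hp
    have hrough : ∀ j, ∀ p : ℕ, p.Prime → p ∣ n + h j → (X : ℝ) ^ (1 / (r₁ : ℝ)) < p := by
      intro j p hp hd
      by_contra hcon
      push Not at hcon
      by_cases hpW : p ∣ W
      · have e1 : n + h j ≡ a + h j [MOD p] := (hnmod p hpW).add_right _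
        have e2 : p ∣ a + h j := (Nat.modEq_zero_iff_dvd).1 (e1.symm.trans ((Nat.modEq_zero_iff_dvd).2 hd))
        exact Nat.not_coprime_of_dvd_of_dvd hp.one_lt e2 hpW (ha1 j)
      · apply hνs p hp hcon (by rw [← hW]; exact hpW)
        rw [hOmd]
        simp only [mem_filter, mem_range]
        have hpX : (p : ℝ) ≤ X := by
          refine hcon.trans ?_
          calc (X : ℝ) ^ (1 / (r₁ : ℝ)) ≤ (X : ℝ) ^ (1 : ℝ) := by
                apply Real.rpow_le_rpow_of_exponent_le hX1
                rw [div_le_one (by linarith)]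
                exact hr₁r
            _ = X := Real.rpow_one _
        have hpX' : p ≤ X := by exact_mod_cast hpX
        refine ⟨Nat.mod_lt _ hp.pos, ?_, j, ?_⟩
        · intro h0
          have := (Nat.prime_dvd_prime_iff_eq hp hνp).1 (Nat.dvd_of_mod_eq_zero h0)
          omega
        · have e1 : ((ν % p : ℕ) : ℤ) = (ν : ℤ) - p * (ν / p : ℕ) := by
            have := Nat.mod_add_div ν p
            have e2 : ((ν % p : ℕ) : ℤ) + p * (ν / p : ℕ) = ν := by exact_mod_cast this
            linarith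
          rw [e1]
          have e3 : (ν : ℤ) - p * (ν / p : ℕ) + h j - h j₀ = ((n + h j : ℕ) : ℤ) - p * (ν / p : ℕ) := by
            have : (ν : ℤ) = n + h j₀ := by exact_mod_cast hνh.symm
            rw [this]
            push_cast
            ring
          rw [e3]
          exact dvd_sub (Int.natCast_dvd_natCast.2 hd) (Dvd.intro _ rfl)
    refine ⟨⟨by omega, by omega⟩, by rw [hνh]; exact hνp, by rw [hνh]; exact hXν,
      by rw [hνh]; exact hν2, ?_, ?_⟩
    · intro j
      refine ⟨?_, hrough j⟩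
      have hn0 : n + h j ≠ 0 := by omega
      have hnle : ((n + h j : ℕ) : ℝ) ≤ 4 * X := by
        have e1 : ((n : ℕ) : ℝ) ≤ 3 * X := by
          have : n ≤ 3 * X := by omega
          exact_mod_cast this
        have e2 : (h j : ℝ) ≤ X := by
          have := hh j
          nlinarith
        push_cast
        linarith
      by_contra hlen
      push Not at hlen
      have e1 : ((X : ℝ) ^ (1 / (r₁ : ℝ))) ^ (n + h j).primeFactorsList.length ≤ ((n + h j : ℕ) : ℝ) := by
        have e2 : ∀ l : List ℕ, (∀ q ∈ l, (X : ℝ) ^ (1 / (r₁ : ℝ)) ≤ q) →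
            ((X : ℝ) ^ (1 / (r₁ : ℝ))) ^ l.length ≤ ((l.prod : ℕ) : ℝ) := by
          intro l
          induction l with
          | nil => intro _; simp
          | cons q l ih =>
            intro hq
            rw [List.length_cons, pow_succ, List.prod_cons, Nat.cast_mul, mul_comm]
            exact mul_le_mul (hq q (by simp)) (ih (fun q' hq' => hq q' (by simp [hq'])))
              (by positivity) (Nat.cast_nonneg _)
        have e3 := e2 _ (fun q hq => (hrough j q (Nat.prime_of_mem_primeFactorsList hq)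
          (Nat.dvd_of_mem_primeFactorsList hq)).le)
        rwa [Nat.prod_primeFactorsList hn0] at e3
      have e4 : ((X : ℝ) ^ (1 / (r₁ : ℝ))) ^ (r₁ + 1) ≤ 4 * X := by
        refine le_trans ?_ (e1.trans hnle)
        apply pow_le_pow_right₀ _ hlen
        exact Real.one_le_rpow hX1 (by positivity)
      have e5 : ((X : ℝ) ^ (1 / (r₁ : ℝ))) ^ (r₁ + 1) = X * (X : ℝ) ^ (1 / (r₁ : ℝ)) := by
        rw [pow_succ, ← Real.rpow_natCast, ← Real.rpow_mul hX0.le]
        congr 1
        rw [one_div, inv_mul_cancel₀ (by linarith), Real.rpow_one]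
      rw [e5] at e4
      have e6 : (X : ℝ) ^ (1 / (r₁ : ℝ)) ≤ 4 := by nlinarith
      have e7 := Real.log_le_log (by positivity) e6
      rw [Real.log_rpow hX0] at e7
      have e8 : Real.log 4 < 2 := by
        have : Real.log 4 = 2 * Real.log 2 := by
          rw [show (4 : ℝ) = 2 ^ 2 by norm_num, Real.log_pow]; norm_num
        rw [this]
        have := Real.log_two_lt_d9
        linarith
      have e9 : 2 ≤ 1 / (r₁ : ℝ) * Real.log X := by
        rw [one_div, inv_mul_eq_div, le_div_iff₀ (by linarith)]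
        linarith
      linarith
    · intro m hm hmj
      obtain ⟨p, hp, hd⟩ := ha2 m hm hmj
      have hpP := mem_PW.1 hp
      refine ⟨p, hpP.2.1, ?_, ?_⟩
      · have e1 : (p : ℝ) ≤ yy X := by exact_mod_cast hpP.1
        have e2 : (yy X : ℝ) ≤ Real.log X / 1000 := Nat.floor_le (by positivity)
        linarith
      · have e1 : n + m ≡ a + m [MOD p] := (hnmod p (hdvdW p hp)).add_right _
        exact (Nat.modEq_zero_iff_dvd).1 (e1.trans ((Nat.modEq_zero_iff_dvd).2 hd))
  · intro ν hν ν' hν' hνν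
    simp only [coe_filter, mem_Icc, Set.mem_ofPred_eq] at hν hν' hνν
    omega

end Pool.Agent.Y175.RC
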