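import Pool.Agent.TH423.SH.PSUP
import Pool.Agent.TH423.SH.FLLP
import Pool.Agent.Y829.RW4
import Pool.Agent.H373R2.T7.FundB

set_option autoImplicit false
set_option maxHeartbeats 4000000

/-!
# Two applications of the fundamental lemma

Author: helper175.
-/

namespace Pool.Agent.Y175.RC

open Finset Filter Pool.Agent.TH423.SH Pool.Agent.TH423.SH.PSUa
open Pool.Agent.H378R2 (Phi EPhi LPhi MPhi WW PW yy GoodP GoodS BVrel)

/-- the body of `FLL` -/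
def FLB (C : ℕ) : Prop := ∀ (κ b J z0 : ℕ) (P : Finset ℕ) (g : ℕ → ℝ)
  (Om : ℕ → Finset ℕ), C * (κ + 1) ≤ b → C * (κ + 1) ≤ z0 →
  (∀ p ∈ P, p.Prime ∧ z0 < p ∧ p ≤ 2 ^ 2 ^ J) →
  (∀ p ∈ P, (Om p).card ≤ κ) → (∀ p ∈ P, 0 ≤ g p ∧ g p ≤ 1 / ((p : ℝ) - 1)) →
  ∀ (S : Finset ℕ) (w : ℕ → ℝ) (A : ℝ) (err : ℕ → ℝ), (∀ n ∈ S, 0 ≤ w n) → 0 ≤ A →
    (∀ m, 0 ≤ err m) →
    (∀ T ⊆ P, ∏ p ∈ T, p ≤ (2 ^ 2 ^ J) ^ (C * b) → ∀ c : ℕ → ℕ, (∀ p ∈ T, c p ∈ Om p) →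
      |∑ n ∈ S.filter (fun n => ∀ p ∈ T, n % p = c p), w n - A * ∏ p ∈ T, g p| ≤
        err (∏ p ∈ T, p)) →
    |∑ n ∈ S.filter (fun n => ∀ p ∈ P, n % p ∉ Om p), w n -
        A * ∏ p ∈ P, (1 - ((Om p).card : ℝ) * g p)| ≤
      (1 / 2 : ℝ) ^ b * (A * ∏ p ∈ P, (1 - ((Om p).card : ℝ) * g p)) +
        ((J : ℝ) + 2) *
          ∑ T ∈ P.powerset.filter (fun T : Finset ℕ => ∏ p ∈ T, p ≤ (2 ^ 2 ^ J) ^ (C * b)),
            (κ : ℝ) ^ T.card * err (∏ p ∈ T, p)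

lemma flb : ∃ C : ℕ, 1 ≤ C ∧ FLB C := fll

/-- a maximiser of the discrepancy -/
lemma exists_max (X : ℝ) (M : ℕ) : 1 ≤ M → ∃ b : ℕ, b.Coprime M ∧
    ∀ r, r < M → r.Coprime M → |EPhi X M r| ≤ |EPhi X M b| := by
  intro hM
  have hne : ((range M).filter (fun r => r.Coprime M)).Nonempty := by
    rcases Nat.lt_or_ge 1 M with h | h
    · exact ⟨1, by rw [mem_filter, mem_range]; exact ⟨h, Nat.coprime_one_left _⟩⟩
    · have : M = 1 := by omega
      subst this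
      exact ⟨0, by simp⟩
  obtain ⟨b, hb, hmax⟩ := exists_max_image _ (fun r => |EPhi X M r|) hne
  rw [mem_filter] at hb
  refine ⟨b, hb.2, fun r hr hrc => hmax r ?_⟩
  rw [mem_filter, mem_range]
  exact ⟨hr, hrc⟩

/-- primes with the weight `Phi`, in a class modulo `W`, sieved -/
theorem prime_part {C : ℕ} (hC : FLB C) {κ b : ℕ} (hb : C * (κ + 1) ≤ b) (X : ℝ) (W J : ℕ)
    (hW : 1 ≤ W) (P : Finset ℕ)
    (hP : ∀ p ∈ P, p.Prime ∧ ¬ p ∣ W ∧ C * (κ + 1) < p ∧ p ≤ 2 ^ 2 ^ J) (a : ℕ) (ha : a.Coprime W)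
    (Om : ℕ → Finset ℕ) (hOm : ∀ p ∈ P, (Om p).card ≤ κ ∧ 0 ∉ Om p ∧ ∀ c ∈ Om p, c < p) (Er : ℝ)
    (hE : ∀ bm : ℕ → ℕ, (∀ q, 1 ≤ q → (bm q).Coprime (W * q)) →
      ∑ T ∈ P.powerset.filter (fun T : Finset ℕ => ∏ p ∈ T, p ≤ (2 ^ 2 ^ J) ^ (C * b)),
        (κ : ℝ) ^ T.card * |EPhi X (W * ∏ p ∈ T, p) (bm (∏ p ∈ T, p))| ≤ Er) :
    |∑ n ∈ ((Icc 1 ⌊3 * X⌋₊).filter (fun n => n % W = a % W)).filter
        (fun n => ∀ p ∈ P, n % p ∉ Om p), Phi (n / X) * ArithmeticFunction.vonMangoldt n -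
      LPhi X / Nat.totient W * ∏ p ∈ P, (1 - ((Om p).card : ℝ) / ((p : ℝ) - 1))| ≤
    (1 / 2 : ℝ) ^ b * (LPhi X / Nat.totient W *
      ∏ p ∈ P, (1 - ((Om p).card : ℝ) / ((p : ℝ) - 1))) + ((J : ℝ) + 2) * Er := by
  have hmax : ∀ q : ℕ, ∃ b : ℕ, 1 ≤ q → (b.Coprime (W * q) ∧
      ∀ r, r < W * q → r.Coprime (W * q) → |EPhi X (W * q) r| ≤ |EPhi X (W * q) b|) := by
    intro q
    by_cases hq : 1 ≤ q
    · obtain ⟨b, h1, h2⟩ := exists_max X (W * q) (Nat.mul_pos hW hq)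
      exact ⟨b, fun _ => ⟨h1, h2⟩⟩
    · exact ⟨0, fun h => absurd h hq⟩
  choose bm hbm using hmax
  have hφ0 : (0:ℝ) < Nat.totient W := by exact_mod_cast Nat.totient_pos.mpr (by omega)
  have hL0 : 0 ≤ LPhi X := by
    unfold LPhi
    exact sum_nonneg fun n _ => mul_nonneg (le_max_left _ _) ArithmeticFunction.vonMangoldt_nonneg
  have key := hC κ b J (C * (κ + 1)) P (fun p => 1 / ((p:ℝ) - 1)) Om hb le_rfl
    (fun p hp => ⟨(hP p hp).1, (hP p hp).2.2.1, (hP p hp).2.2.2⟩)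
    (fun p hp => (hOm p hp).1)
    (by
      intro p hp
      have h1 : (2:ℝ) ≤ p := by exact_mod_cast (hP p hp).1.two_le
      exact ⟨by apply div_nonneg <;> linarith, le_rfl⟩)
    ((Icc 1 ⌊3 * X⌋₊).filter (fun n => n % W = a % W))
    (fun n => Phi (n / X) * ArithmeticFunction.vonMangoldt n)
    (LPhi X / Nat.totient W)
    (fun D => |EPhi X (W * D) (bm D)|)
    (fun _ _ => mul_nonneg (le_max_left _ _) ArithmeticFunction.vonMangoldt_nonneg)
    (by positivity)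
    (fun D => abs_nonneg _)
    (by
      intro T hT _ c hc
      have hT1 : ∀ p ∈ T, p.Prime ∧ ¬ p ∣ W := fun p hp => by
        obtain ⟨h1, h2, -⟩ := hP p (hT hp); exact ⟨h1, h2⟩
      obtain ⟨r, hr1, hr2, hr3⟩ := crt W hW a ha c T hT1 (by
        intro p hp
        obtain ⟨-, h2, h3⟩ := hOm p (hT hp)
        refine ⟨h3 _ (hc p hp), ?_⟩
        intro h4
        apply h2
        rw [← h4]; exact hc p hp)
      have hM := tot W T hT1
      have hq1 : 1 ≤ ∏ p ∈ T, p := Nat.one_le_iff_ne_zero.2 (prod_ne_zero_iff.2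
        fun p hp => (hT1 p hp).1.ne_zero)
      obtain ⟨hb1, hb2⟩ := hbm _ hq1
      refine le_trans (le_of_eq ?_) (hb2 r hr1 hr2)
      unfold EPhi LPhi
      rw [hM]
      congr 1
      rw [filter_filter]
      congr 1
      · apply sum_congr _ (fun _ _ => rfl)
        apply filter_congr
        intro n _
        exact hr3 n
      · rw [prod_div_distrib, prod_const_one]
        rw [div_mul_div_comm, mul_one, one_div, inv_mul_eq_div])
  have hprod : ∏ p ∈ P, (1 - ((Om p).card : ℝ) * (1 / ((p:ℝ) - 1))) =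
      ∏ p ∈ P, (1 - ((Om p).card : ℝ) / ((p:ℝ) - 1)) :=
    prod_congr rfl fun p _ => by rw [mul_one_div]
  rw [hprod] at key
  refine key.trans ?_
  have h1 := hE bm (fun q hq => (hbm q hq).1)
  have h2 : ((J : ℝ) + 2) *
      ∑ T ∈ P.powerset.filter (fun T : Finset ℕ => ∏ p ∈ T, p ≤ (2 ^ 2 ^ J) ^ (C * b)),
      (κ : ℝ) ^ T.card * |EPhi X (W * ∏ p ∈ T, p) (bm (∏ p ∈ T, p))| ≤ ((J : ℝ) + 2) * Er :=
    mul_le_mul_of_nonneg_left h1 (by positivity)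
  linarith

/-- residues modulo `m₀` and modulo several primes -/
lemma crtg (m₀ : ℕ) (hm₀ : 1 ≤ m₀) (a : ℕ) (c : ℕ → ℕ) (T : Finset ℕ) :
    (∀ p ∈ T, p.Prime ∧ ¬ p ∣ m₀) → (∀ p ∈ T, c p < p) →
    ∃ r, ∀ n, (n % m₀ = a % m₀ ∧ ∀ p ∈ T, n % p = c p) ↔ n ≡ r [MOD m₀ * ∏ p ∈ T, p] := by
  induction T using Finset.induction_on with
  | empty =>
    intro _ _
    refine ⟨a, ?_⟩
    intro n
    rw [prod_empty, mul_one]
    constructor
    · rintro ⟨h, -⟩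
      exact h
    · intro h
      exact ⟨h, fun p hp => absurd hp (notMem_empty p)⟩
  | insert p T hp ih =>
    intro h1 h2
    obtain ⟨r, hr3⟩ := ih (fun q hq => h1 q (mem_insert_of_mem hq))
      (fun q hq => h2 q (mem_insert_of_mem hq))
    obtain ⟨hpp, hpm⟩ := h1 p (mem_insert_self p T)
    have hc1 := h2 p (mem_insert_self p T)
    obtain ⟨M, hM⟩ : ∃ M, M = m₀ * ∏ p ∈ T, p := ⟨_, rfl⟩
    rw [← hM] at hr3
    have hMp : m₀ * ∏ p ∈ insert p T, p = M * p := by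
      rw [prod_insert hp, hM]; ring
    rw [hMp]
    have hco : M.Coprime p := by
      rw [Nat.coprime_comm, Nat.Prime.coprime_iff_not_dvd hpp, hM, hpp.dvd_mul]
      rintro (h | h)
      · exact hpm h
      · rw [Prime.dvd_finset_prod_iff hpp.prime] at h
        obtain ⟨q, hq, hpq⟩ := h
        have := (Nat.prime_dvd_prime_iff_eq hpp (h1 q (mem_insert_of_mem hq)).1).mp hpq
        subst this
        exact hp hq
    obtain ⟨s, hs⟩ : ∃ s, s = Nat.chineseRemainder hco r (c p) := ⟨_, rfl⟩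
    have e1 := s.2.1
    have e2 := s.2.2
    refine ⟨s, ?_⟩
    intro n
    rw [← Nat.modEq_and_modEq_iff_modEq_mul hco]
    constructor
    · rintro ⟨g1, g2⟩
      constructor
      · exact ((hr3 n).mp ⟨g1, fun q hq => g2 q (mem_insert_of_mem hq)⟩).trans e1.symm
      · refine Nat.ModEq.trans ?_ e2.symm
        unfold Nat.ModEq
        rw [g2 p (mem_insert_self p T), Nat.mod_eq_of_lt hc1]
    · rintro ⟨g1, g2⟩
      obtain ⟨g3, g4⟩ := (hr3 n).mpr (g1.trans e1)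
      refine ⟨g3, ?_⟩
      intro q hq
      rcases mem_insert.mp hq with rfl | hq
      · have := g2.trans e2
        unfold Nat.ModEq at this
        rw [this, Nat.mod_eq_of_lt hc1]
      · exact g4 q hq

/-- integers of a class in an interval -/
lemma class_int (M N r : ℕ) (hM : 0 < M) :
    |(((Icc 1 N).filter (fun n => n ≡ r [MOD M])).card : ℝ) - N / M| ≤ 1 := by
  have h0 : Icc 1 N = Ioc 0 N := by
    ext n; rw [mem_Icc, mem_Ioc]; omega
  have h1 := Nat.Ioc_filter_modEq_card 0 N hM r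
  rw [h0]
  have hMr : (0 : ℝ) < M := by exact_mod_cast hM
  have h2 : ((((Ioc 0 N).filter (fun n => n ≡ r [MOD M])).card : ℤ) : ℝ) =
      ((max (⌊((N : ℚ) - r) / M⌋ - ⌊(((0 : ℕ) : ℚ) - r) / M⌋) 0 : ℤ) : ℝ) := by rw [h1]
  have h3 : ((((Ioc 0 N).filter (fun n => n ≡ r [MOD M])).card : ℤ) : ℝ) =
      (((Ioc 0 N).filter (fun n => n ≡ r [MOD M])).card : ℝ) := by push_cast; rfl
  rw [← h3, h2]
  have e1 := Int.floor_le (((N : ℚ) - r) / M)
  have e2 := Int.lt_floor_add_one (((N : ℚ) - r) / M)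
  have e3 := Int.floor_le ((((0 : ℕ) : ℚ) - r) / M)
  have e4 := Int.lt_floor_add_one ((((0 : ℕ) : ℚ) - r) / M)
  have hq : ((N : ℚ) - r) / M - (((0 : ℕ) : ℚ) - r) / M = N / M := by
    push_cast; ring
  have hN : (0 : ℚ) ≤ (N : ℚ) / M := by positivity
  obtain ⟨A, hA⟩ : ∃ A, A = ⌊((N : ℚ) - r) / M⌋ := ⟨_, rfl⟩
  obtain ⟨B, hB⟩ : ∃ B, B = ⌊(((0 : ℕ) : ℚ) - r) / M⌋ := ⟨_, rfl⟩
  rw [← hA] at e1 e2
  rw [← hB] at e3 e4
  rw [← hA, ← hB]
  have f1 : ((A - B : ℤ) : ℚ) < N / M + 1 := by push_cast; linarith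
  have f2 : (N : ℚ) / M - 1 < ((A - B : ℤ) : ℚ) := by push_cast; linarith
  have g1 : ((max (A - B) 0 : ℤ) : ℚ) ≤ N / M + 1 := by
    push_cast [Int.cast_max]
    push_cast at f1
    exact max_le f1.le (by linarith)
  have g2 : (N : ℚ) / M - 1 ≤ ((max (A - B) 0 : ℤ) : ℚ) := by
    push_cast [Int.cast_max]
    push_cast at f2
    exact f2.le.trans (le_max_left _ _)
  have g1' : ((max (A - B) 0 : ℤ) : ℝ) ≤ N / M + 1 := by
    have h := (Rat.cast_le (K := ℝ)).2 g1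
    rw [Rat.cast_intCast] at h
    push_cast at h ⊢
    exact h
  have g2' : (N : ℝ) / M - 1 ≤ ((max (A - B) 0 : ℤ) : ℝ) := by
    have h := (Rat.cast_le (K := ℝ)).2 g2
    rw [Rat.cast_intCast] at h
    push_cast at h ⊢
    exact h
  rw [abs_le]
  constructor <;> linarith

/-- the error of the integer sieve -/
lemma err_int (κ A' D : ℕ) (hκ : κ ≤ 2 ^ A') (P : Finset ℕ) (hP : ∀ p ∈ P, p.Prime) :
    ∑ T ∈ P.powerset.filter (fun T : Finset ℕ => ∏ p ∈ T, p ≤ D), (κ : ℝ) ^ T.card * 1 ≤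
      (D : ℝ) ^ (A' + 1) := by
  have h1 : ∀ T ∈ P.powerset.filter (fun T : Finset ℕ => ∏ p ∈ T, p ≤ D), (κ : ℝ) ^ T.card * 1 ≤
      (D : ℝ) ^ A' := by
    intro T hT
    rw [mem_filter, mem_powerset] at hT
    have h2 : 2 ^ T.card ≤ ∏ p ∈ T, p := by
      rw [← prod_const]
      exact prod_le_prod' fun p hp => (hP p (hT.1 hp)).two_le
    have h3 : κ ^ T.card ≤ D ^ A' := by
      calc κ ^ T.card ≤ (2 ^ A') ^ T.card := Nat.pow_le_pow_left hκ _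
        _ = (2 ^ T.card) ^ A' := by rw [← pow_mul, ← pow_mul, mul_comm]
        _ ≤ D ^ A' := Nat.pow_le_pow_left (h2.trans hT.2) _
    rw [mul_one]
    exact_mod_cast h3
  have h2 : (P.powerset.filter (fun T : Finset ℕ => ∏ p ∈ T, p ≤ D)).card ≤ D := by
    have h3 : (P.powerset.filter (fun T : Finset ℕ => ∏ p ∈ T, p ≤ D)).card ≤ (Icc 1 D).card := by
      apply card_le_card_of_injOn (fun T : Finset ℕ => ∏ p ∈ T, p)
      · intro T hT
        rw [mem_coe, mem_filter, mem_powerset] at hT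
        rw [mem_coe, mem_Icc]
        refine ⟨Nat.one_le_iff_ne_zero.2 (prod_ne_zero_iff.2 fun p hp => (hP p (hT.1 hp)).ne_zero), hT.2⟩
      · intro T hT T' hT' hTT
        rw [mem_coe, mem_filter, mem_powerset] at hT hT'
        simp only at hTT
        rw [← Nat.primeFactors_prod (fun p hp => hP p (hT.1 hp)),
          ← Nat.primeFactors_prod (fun p hp => hP p (hT'.1 hp)), hTT]
    simpa using h3
  calc _ ≤ (P.powerset.filter (fun T : Finset ℕ => ∏ p ∈ T, p ≤ D)).card • (D : ℝ) ^ A' :=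
        sum_le_card_nsmul _ _ _ h1
    _ ≤ (D : ℝ) * (D : ℝ) ^ A' := by
        rw [nsmul_eq_mul]
        apply mul_le_mul_of_nonneg_right _ (by positivity)
        exact_mod_cast h2
    _ = _ := by ring

/-- integers in a class modulo `M`, sieved -/
theorem int_part {C : ℕ} (hC : FLB C) {κ b A' : ℕ} (hb : C * (κ + 1) ≤ b) (hκ : κ ≤ 2 ^ A')
    (N M J : ℕ) (hM : 1 ≤ M) (P : Finset ℕ)
    (hP : ∀ p ∈ P, p.Prime ∧ ¬ p ∣ M ∧ C * (κ + 1) < p ∧ p ≤ 2 ^ 2 ^ J) (r : ℕ)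
    (Om : ℕ → Finset ℕ) (hOm : ∀ p ∈ P, (Om p).card ≤ κ ∧ ∀ c ∈ Om p, c < p) :
    |((((Icc 1 N).filter (fun n => n % M = r % M)).filter
        (fun n => ∀ p ∈ P, n % p ∉ Om p)).card : ℝ) -
      (N : ℝ) / M * ∏ p ∈ P, (1 - ((Om p).card : ℝ) / p)| ≤
    (1 / 2 : ℝ) ^ b * ((N : ℝ) / M * ∏ p ∈ P, (1 - ((Om p).card : ℝ) / p)) +
      ((J : ℝ) + 2) * (((2 ^ 2 ^ J) ^ (C * b) : ℕ) : ℝ) ^ (A' + 1) := by
  have hMr : (0 : ℝ) < M := by exact_mod_cast hM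
  have key := hC κ b J (C * (κ + 1)) P (fun p => 1 / (p:ℝ)) Om hb le_rfl
    (fun p hp => ⟨(hP p hp).1, (hP p hp).2.2.1, (hP p hp).2.2.2⟩)
    (fun p hp => (hOm p hp).1)
    (by
      intro p hp
      have h1 : (2:ℝ) ≤ p := by exact_mod_cast (hP p hp).1.two_le
      refine ⟨by positivity, ?_⟩
      apply one_div_le_one_div_of_le <;> linarith)
    ((Icc 1 N).filter (fun n => n % M = r % M))
    (fun _ => 1) ((N : ℝ) / M) (fun _ => 1)
    (fun _ _ => zero_le_one)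
    (by positivity)
    (fun _ => zero_le_one)
    (by
      intro T hT _ c hc
      have hT1 : ∀ p ∈ T, p.Prime ∧ ¬ p ∣ M := fun p hp => by
        obtain ⟨h1, h2, -⟩ := hP p (hT hp); exact ⟨h1, h2⟩
      obtain ⟨r', hr3⟩ := crtg M hM r c T hT1 (fun p hp => (hOm p (hT hp)).2 _ (hc p hp))
      have hq1 : 1 ≤ ∏ p ∈ T, p := Nat.one_le_iff_ne_zero.2 (prod_ne_zero_iff.2
        fun p hp => (hT1 p hp).1.ne_zero)
      refine le_trans (le_of_eq ?_) (class_int (M * ∏ p ∈ T, p) N r' (Nat.mul_pos hM hq1))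
      congr 1
      rw [filter_filter, sum_const, nsmul_eq_mul, mul_one]
      congr 1
      · congr 2
        apply filter_congr
        intro n _
        exact hr3 n
      · rw [prod_div_distrib, prod_const_one]
        push_cast
        rw [div_mul_div_comm, mul_one])
  have hprod : ∏ p ∈ P, (1 - ((Om p).card : ℝ) * (1 / (p:ℝ))) =
      ∏ p ∈ P, (1 - ((Om p).card : ℝ) / (p:ℝ)) :=
    prod_congr rfl fun p _ => by rw [mul_one_div]
  rw [hprod] at key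
  have h1 : ∑ n ∈ ((Icc 1 N).filter (fun n => n % M = r % M)).filter
      (fun n => ∀ p ∈ P, n % p ∉ Om p), (1 : ℝ) =
      ((((Icc 1 N).filter (fun n => n % M = r % M)).filter
        (fun n => ∀ p ∈ P, n % p ∉ Om p)).card : ℝ) := by
    rw [sum_const, nsmul_eq_mul, mul_one]
  rw [← h1]
  refine key.trans ?_
  have h2 := err_int κ A' ((2 ^ 2 ^ J) ^ (C * b)) hκ P (fun p hp => (hP p hp).1)
  have h3 := mul_le_mul_of_nonneg_left h2 (show (0 : ℝ) ≤ (J : ℝ) + 2 by positivity)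
  linarith

end Pool.Agent.Y175.RC
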