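import Pool.Agent.Y175.RC.SieA
import Pool.Agent.H318R2.Cr.Prod

set_option autoImplicit false
set_option maxHeartbeats 4000000

/-!
# Auxiliary estimates for the sieve

Author: helper175.
-/

namespace Pool.Agent.Y175.RC

open Finset Filter Pool.Agent.TH423.SH Pool.Agent.TH423.SH.PSUa
open Pool.Agent.H378R2 (Phi EPhi LPhi MPhi WW PW yy GoodP GoodS BVrel)
open Pool.Agent.H318R2.Cr (V Pz mem_Pz cz_bounds one_sub_inv_pos V_pos)

lemma cop_prod (p : ℕ) (hp : p.Prime) (T : Finset ℕ) (hT : ∀ q ∈ T, q.Prime) (hpT : p ∉ T) :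
    p.Coprime (∏ q ∈ T, q) := by
  rw [Nat.coprime_prod_right_iff]
  intro q hq
  exact (Nat.coprime_primes hp (hT q hq)).2 (fun h => hpT (h ▸ hq))

lemma sf_prod (T : Finset ℕ) : (∀ p ∈ T, p.Prime) → Squarefree (∏ p ∈ T, p) ∧
    (∏ p ∈ T, p).divisors.card = 2 ^ T.card := by
  induction T using Finset.induction_on with
  | empty => intro _; simp
  | insert p T hp ih =>
    intro h
    obtain ⟨h1, h2⟩ := ih (fun q hq => h q (mem_insert_of_mem hq))
    have hpp := h p (mem_insert_self _ _)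
    have hc := cop_prod p hpp T (fun q hq => h q (mem_insert_of_mem hq)) hp
    rw [prod_insert hp]
    refine ⟨(Nat.squarefree_mul hc).2 ⟨hpp.squarefree, h1⟩, ?_⟩
    rw [Nat.Coprime.card_divisors_mul hc, h2, card_insert_of_notMem hp, hpp.divisors,
      card_pair hpp.one_lt.ne]
    ring

/-- the sum of the discrepancies -/
lemma bv_sum (κ A' B : ℕ) (hκ : κ ≤ 2 ^ A') (Z : ℕ) : ∃ X0 : ℝ, ∀ X : ℝ, X0 ≤ X →
    ∃ (ps : ℕ) (S : Finset ℕ), GoodP Z ps ∧ GoodS X S ∧
    ∀ (D : ℕ), (D : ℝ) ≤ X ^ (1 / 100 : ℝ) → ∀ P : Finset ℕ,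
      (∀ p ∈ P, p.Prime ∧ ¬ p ∣ WW X S ps ∧ p ≠ ps) →
      ∀ bm : ℕ → ℕ, (∀ q, 1 ≤ q → (bm q).Coprime (WW X S ps * q)) →
      ∑ T ∈ P.powerset.filter (fun T : Finset ℕ => ∏ p ∈ T, p ≤ D),
        (κ : ℝ) ^ T.card * |EPhi X (WW X S ps * ∏ p ∈ T, p) (bm (∏ p ∈ T, p))| ≤
      X / ((Nat.totient (WW X S ps) : ℝ) * (Real.log X) ^ B) := by
  obtain ⟨X0, hX0⟩ := Pool.Agent.Y829.RW.bv (max A' B) Z
  refine ⟨max X0 (Real.exp 1), fun X hX => ?_⟩
  obtain ⟨ps, S, hps, hS, h⟩ := hX0 X ((le_max_left _ _).trans hX)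
  have hXe : Real.exp 1 ≤ X := (le_max_right _ _).trans hX
  have hX0' : 0 < X := (Real.exp_pos 1).trans_le hXe
  have hL1 : 1 ≤ Real.log X := by
    rw [← Real.log_exp 1]; exact Real.log_le_log (Real.exp_pos _) hXe
  refine ⟨ps, S, hps, hS, ?_⟩
  intro D hD P hP bm hbm
  have h1 := h bm hbm
  refine le_trans ?_ (h1.trans ?_)
  · have hinj : Set.InjOn (fun T : Finset ℕ => ∏ p ∈ T, p)
        (P.powerset.filter (fun T : Finset ℕ => ∏ p ∈ T, p ≤ D) : Set (Finset ℕ)) := by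
      intro T hT T' hT' hTT
      rw [mem_coe, mem_filter, mem_powerset] at hT hT'
      simp only at hTT
      rw [← Nat.primeFactors_prod (fun p hp => (hP p (hT.1 hp)).1),
        ← Nat.primeFactors_prod (fun p hp => (hP p (hT'.1 hp)).1), hTT]
    calc ∑ T ∈ P.powerset.filter (fun T : Finset ℕ => ∏ p ∈ T, p ≤ D),
        (κ : ℝ) ^ T.card * |EPhi X (WW X S ps * ∏ p ∈ T, p) (bm (∏ p ∈ T, p))| ≤
        ∑ T ∈ P.powerset.filter (fun T : Finset ℕ => ∏ p ∈ T, p ≤ D),
        (((∏ p ∈ T, p).divisors.card : ℝ)) ^ (max A' B) *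
          |EPhi X (WW X S ps * ∏ p ∈ T, p) (bm (∏ p ∈ T, p))| := by
          apply sum_le_sum
          intro T hT
          rw [mem_filter, mem_powerset] at hT
          apply mul_le_mul_of_nonneg_right _ (abs_nonneg _)
          have hTp : ∀ p ∈ T, p.Prime := fun p hp => (hP p (hT.1 hp)).1
          have h2 : 2 ^ T.card ≤ (∏ p ∈ T, p).divisors.card := by
            rw [(sf_prod T hTp).2]
          have h5 : (κ : ℝ) ^ T.card ≤ ((2 : ℝ) ^ T.card) ^ (max A' B) := by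
            rw [← pow_mul, mul_comm, pow_mul]
            apply pow_le_pow_left₀ (Nat.cast_nonneg _)
            calc (κ : ℝ) ≤ (2 : ℝ) ^ A' := by exact_mod_cast hκ
              _ ≤ _ := pow_le_pow_right₀ (by norm_num) (le_max_left _ _)
          refine h5.trans ?_
          apply pow_le_pow_left₀ (by positivity)
          exact_mod_cast h2
      _ = ∑ q ∈ (P.powerset.filter (fun T : Finset ℕ => ∏ p ∈ T, p ≤ D)).image
            (fun T : Finset ℕ => ∏ p ∈ T, p),
          ((q.divisors.card : ℝ)) ^ (max A' B) * |EPhi X (WW X S ps * q) (bm q)| := by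
          rw [sum_image hinj]
      _ ≤ _ := by
          apply sum_le_sum_of_subset_of_nonneg
          · intro q hq
            rw [mem_image] at hq
            obtain ⟨T, hT, rfl⟩ := hq
            rw [mem_filter, mem_powerset] at hT
            have hTp : ∀ p ∈ T, p.Prime := fun p hp => (hP p (hT.1 hp)).1
            rw [mem_filter, mem_Icc]
            refine ⟨⟨Nat.one_le_iff_ne_zero.2 (prod_ne_zero_iff.2 fun p hp => (hTp p hp).ne_zero), ?_⟩,
              ?_, ?_⟩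
            · apply Nat.le_floor
              exact le_trans (by exact_mod_cast hT.2) hD
            · exact (sf_prod T hTp).1
            · rw [Nat.coprime_prod_left_iff]
              intro p hp
              obtain ⟨g1, g2, g3⟩ := hP p (hT.1 hp)
              rw [Nat.Prime.coprime_iff_not_dvd g1, g1.dvd_mul]
              rintro (h | h)
              · exact g2 h
              · rcases hps with h6 | ⟨h6, _⟩
                · rw [h6] at h
                  exact g1.one_lt.ne' (Nat.dvd_one.1 h)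
                · exact g3 ((Nat.prime_dvd_prime_iff_eq g1 h6).1 h)
          · intro q _ _
            exact mul_nonneg (by positivity) (abs_nonneg _)
  · apply div_le_div_of_nonneg_left hX0'.le
    · have : (0 : ℝ) < Nat.totient (WW X S ps) := by
        exact_mod_cast Nat.totient_pos.2 (Pool.Agent.H378R2.LSBV.WW_pos X S ps)
      positivity
    · apply mul_le_mul_of_nonneg_left _ (Nat.cast_nonneg _)
      exact pow_le_pow_right₀ hL1 (le_max_right _ _)

/-- `V` over a larger set is smaller -/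
lemma prod_anti {s t : Finset ℕ} (f : ℕ → ℝ) (hst : s ⊆ t) (h0 : ∀ p ∈ t, 0 ≤ f p)
    (h1 : ∀ p ∈ t, f p ≤ 1) : ∏ p ∈ t, f p ≤ ∏ p ∈ s, f p := by
  rw [← prod_sdiff hst]
  have h2 : ∏ p ∈ t \ s, f p ≤ 1 := prod_le_one (fun p hp => h0 p (Finset.mem_sdiff.1 hp).1)
    (fun p hp => h1 p (Finset.mem_sdiff.1 hp).1)
  have h3 : 0 ≤ ∏ p ∈ s, f p := prod_nonneg fun p hp => h0 p (hst hp)
  nlinarith

/-- lower bound for the sieve product -/
lemma G_low (κ R : ℕ) (P : Finset ℕ) (hP : ∀ p ∈ P, p.Prime ∧ 2 * κ < p ∧ p ≤ R)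
    (Om : ℕ → Finset ℕ) (hOm : ∀ p ∈ P, (Om p).card ≤ κ) :
    (V R) ^ (2 * κ) ≤ ∏ p ∈ P, (1 - ((Om p).card : ℝ) / ((p : ℝ) - 1)) := by
  have h1 : V R ≤ ∏ p ∈ P, (1 - 1 / (p : ℝ)) := by
    apply prod_anti
    · intro p hp
      obtain ⟨h1, _, h3⟩ := hP p hp
      exact mem_Pz.2 ⟨h1, h3⟩
    · intro p hp
      exact (one_sub_inv_pos (mem_Pz.1 hp).1).le
    · intro p _
      have : (0 : ℝ) ≤ 1 / p := by positivity
      linarith
  calc (V R) ^ (2 * κ) ≤ (∏ p ∈ P, (1 - 1 / (p : ℝ))) ^ (2 * κ) :=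
        pow_le_pow_left₀ (V_pos R).le h1 _
    _ = ∏ p ∈ P, (1 - 1 / (p : ℝ)) ^ (2 * κ) := by rw [prod_pow]
    _ ≤ _ := by
        apply Finset.prod_le_prod
        · intro p hp
          exact pow_nonneg (one_sub_inv_pos (hP p hp).1).le _
        · intro p hp
          obtain ⟨hp1, hp2, _⟩ := hP p hp
          have hpr : (2 : ℝ) ≤ p := by exact_mod_cast hp1.two_le
          have hp0 : (0 : ℝ) < p - 1 := by linarith
          have hκ : 2 * (κ : ℝ) ≤ p - 1 := by
            have : 2 * κ + 1 ≤ p := hp2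
            have h : 2 * (κ : ℝ) + 1 ≤ p := by exact_mod_cast this
            linarith
          have hO : ((Om p).card : ℝ) ≤ κ := by exact_mod_cast hOm p hp
          have e1 : (1 - 1 / (p : ℝ)) = 1 / (1 + 1 / ((p : ℝ) - 1)) := by
            field_simp
            ring
          have e2 : 1 + ((2 * κ : ℕ) : ℝ) * (1 / ((p : ℝ) - 1)) ≤ (1 + 1 / ((p : ℝ) - 1)) ^ (2 * κ) := by
            apply one_add_mul_le_pow
            have : 0 ≤ 1 / ((p : ℝ) - 1) := by positivity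
            linarith
          set x : ℝ := 1 / ((p : ℝ) - 1) with hx
          have hx0 : 0 < x := by rw [hx]; positivity
          have hxκ : 2 * (κ : ℝ) * x ≤ 1 := by
            rw [hx, mul_one_div, div_le_one hp0]; exact hκ
          have e3 : ((Om p).card : ℝ) / ((p : ℝ) - 1) ≤ κ * x := by
            rw [hx, mul_one_div]
            exact div_le_div_of_nonneg_right hO hp0.le
          rw [e1, div_pow, one_pow]
          have e4 : 1 / (1 + x) ^ (2 * κ) ≤ 1 / (1 + 2 * κ * x) := by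
            apply one_div_le_one_div_of_le (by positivity)
            push_cast at e2
            linarith
          refine e4.trans ?_
          have e5 : 1 / (1 + 2 * κ * x) ≤ 1 - κ * x := by
            rw [div_le_iff₀ (by positivity)]
            have hk0 : (0 : ℝ) ≤ κ * x := by positivity
            nlinarith
          linarith

/-- Euler's function as a product -/
lemma tot_prod (W : ℕ) (hW : 0 < W) :
    (Nat.totient W : ℝ) = W * ∏ p ∈ W.primeFactors, (1 - 1 / (p : ℝ)) := by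
  have h := Nat.totient_eq_mul_prod_factors W
  have h2 : ((Nat.totient W : ℚ) : ℝ) = (((W : ℚ) * ∏ p ∈ W.primeFactors, (1 - (p : ℚ)⁻¹) : ℚ) : ℝ) := by
    rw [h]
  push_cast at h2
  rw [h2]
  simp only [one_div]

/-- the exceptional prime costs a factor at most 2 -/
lemma VP_le (W R ps : ℕ) (hW : 0 < W) (hWR : ∀ p ∈ W.primeFactors, p ≤ R) (hps : ps.Prime)
    (P : Finset ℕ) (hP : P = (Pz R).filter (fun p => ¬ p ∣ W ∧ p ≠ ps)) :
    (Nat.totient W : ℝ) / W * ∏ p ∈ P, (1 - 1 / (p : ℝ)) ≤ 2 * V R := by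
  have hWr : (0 : ℝ) < W := by exact_mod_cast hW
  rw [tot_prod W hW, mul_div_cancel_left₀ _ hWr.ne']
  have hd : Disjoint W.primeFactors P := by
    rw [disjoint_left]
    intro p hp hp'
    rw [hP, mem_filter] at hp'
    exact hp'.2.1 (Nat.dvd_of_mem_primeFactors hp)
  rw [← prod_union hd]
  have hpr : ∀ p ∈ W.primeFactors ∪ P, p ∈ Pz R := by
    intro p hp
    rcases mem_union.1 hp with h | h
    · exact mem_Pz.2 ⟨Nat.prime_of_mem_primeFactors h, hWR p h⟩
    · rw [hP, mem_filter] at h; exact h.1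
  have h0 : ∀ p ∈ Pz R, 0 ≤ 1 - 1 / (p : ℝ) := fun p hp => (one_sub_inv_pos (mem_Pz.1 hp).1).le
  have h1 : ∀ p ∈ Pz R, 1 - 1 / (p : ℝ) ≤ 1 := fun p _ => by
    have : (0 : ℝ) ≤ 1 / p := by positivity
    linarith
  have h2 : (1 / 2 : ℝ) * ∏ p ∈ W.primeFactors ∪ P, (1 - 1 / (p : ℝ)) ≤ V R := by
    have hps2 : (1 / 2 : ℝ) ≤ 1 - 1 / (ps : ℝ) := by
      have : (2 : ℝ) ≤ ps := by exact_mod_cast hps.two_le
      have : 1 / (ps : ℝ) ≤ 1 / 2 := one_div_le_one_div_of_le (by norm_num) this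
      linarith
    have h3 : V R = (∏ p ∈ Pz R \ (W.primeFactors ∪ P), (1 - 1 / (p : ℝ))) *
        ∏ p ∈ W.primeFactors ∪ P, (1 - 1 / (p : ℝ)) := by
      unfold V
      rw [prod_sdiff hpr]
    rw [h3]
    apply mul_le_mul_of_nonneg_right _ (prod_nonneg fun p hp => h0 p (hpr p hp))
    have h4 : Pz R \ (W.primeFactors ∪ P) ⊆ {ps} := by
      intro p hp
      rw [Finset.mem_sdiff, mem_union, not_or, hP, mem_filter, Nat.mem_primeFactors] at hp
      rw [mem_singleton]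
      by_contra hne
      apply hp.2.2
      refine ⟨hp.1, ?_, hne⟩
      intro hd'
      exact hp.2.1 ⟨(mem_Pz.1 hp.1).1, hd', hW.ne'⟩
    have h5 := prod_anti (fun p : ℕ => 1 - 1 / (p : ℝ)) h4
      (fun p hp => by rw [mem_singleton] at hp; rw [hp]; exact (one_sub_inv_pos hps).le)
      (fun p _ => by
        have : (0 : ℝ) ≤ 1 / p := by positivity
        linarith)
    rw [prod_singleton] at h5
    linarith
  linarith

/-- the exceptional integers -/
theorem bad_card {C : ℕ} (hC : FLB C) {κ b A' : ℕ} (hb : C * (κ + 2) ≤ b) (hb2 : 2 ≤ b)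
    (hκ : κ + 1 ≤ 2 ^ A') (N W J ps a : ℕ) (hW : 1 ≤ W) (hps : ps.Prime) (hpsW : ¬ ps ∣ W)
    (P : Finset ℕ)
    (hP : ∀ p ∈ P, p.Prime ∧ ¬ p ∣ W ∧ p ≠ ps ∧ C * (κ + 2) < p ∧ p ≤ 2 ^ 2 ^ J)
    (Om : ℕ → Finset ℕ) (hOm : ∀ p, p.Prime → (Om p).card ≤ κ ∧ 0 ∉ Om p ∧ ∀ c ∈ Om p, c < p)
    (hGp : ∀ p ∈ P, ((κ : ℝ) + 1) ≤ p)
    (Bad : Finset ℕ) (hBad : ∀ n ∈ Bad, n ∈ Icc 1 N ∧ n % W = a % W ∧ n % ps ∈ Om ps ∧
      ∀ p ∈ P, n % p ∉ Om p ∧ n % p ≠ 0) :
    (Bad.card : ℝ) ≤ κ * (5 / 4 * ((N : ℝ) / (W * ps) * ((∏ p ∈ P, (1 - 1 / (p : ℝ))) *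
      ∏ p ∈ P, (1 - ((Om p).card : ℝ) / ((p : ℝ) - 1)))) +
      ((J : ℝ) + 2) * (((2 ^ 2 ^ J) ^ (C * b) : ℕ) : ℝ) ^ (A' + 1)) := by
  have hprod : ∏ p ∈ P, (1 - (((insert 0 (Om p)).card : ℕ) : ℝ) / p) =
      (∏ p ∈ P, (1 - 1 / (p : ℝ))) * ∏ p ∈ P, (1 - ((Om p).card : ℝ) / ((p : ℝ) - 1)) := by
    rw [← prod_mul_distrib]
    apply prod_congr rfl
    intro p hp
    obtain ⟨h1, _⟩ := hP p hp
    rw [card_insert_of_notMem (hOm p h1).2.1]
    have hpr : (2 : ℝ) ≤ p := by exact_mod_cast h1.two_le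
    have h2 : (p : ℝ) - 1 ≠ 0 := by linarith
    have h3 : (p : ℝ) ≠ 0 := by linarith
    push_cast
    field_simp
    ring
  -- one class modulo `ps`
  have hone : ∀ c ∈ Om ps, ((Bad.filter (fun n => n % ps = c)).card : ℝ) ≤
      5 / 4 * ((N : ℝ) / (W * ps) * ((∏ p ∈ P, (1 - 1 / (p : ℝ))) *
      ∏ p ∈ P, (1 - ((Om p).card : ℝ) / ((p : ℝ) - 1)))) +
      ((J : ℝ) + 2) * (((2 ^ 2 ^ J) ^ (C * b) : ℕ) : ℝ) ^ (A' + 1) := by
    intro c hc
    obtain ⟨r, hr⟩ := crtg W hW a (fun _ => c) {ps}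
      (by intro p hp; rw [mem_singleton] at hp; rw [hp]; exact ⟨hps, hpsW⟩)
      (by intro p hp; rw [mem_singleton] at hp; rw [hp]; exact (hOm ps hps).2.2 c hc)
    rw [prod_singleton] at hr
    have h1 := int_part hC (κ := κ + 1) (b := b) (A' := A') (by
        have : C * (κ + 1 + 1) = C * (κ + 2) := by ring
        omega) hκ N (W * ps) J
      (Nat.mul_pos hW hps.pos) P (by
        intro p hp
        obtain ⟨g1, g2, g3, g4, g5⟩ := hP p hp
        refine ⟨g1, ?_, ?_, g5⟩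
        · rw [g1.dvd_mul]
          rintro (h | h)
          · exact g2 h
          · exact g3 ((Nat.prime_dvd_prime_iff_eq g1 hps).1 h)
        · have : C * (κ + 1 + 1) = C * (κ + 2) := by ring
          omega) r (fun p => insert 0 (Om p)) (by
        intro p hp
        obtain ⟨g1, _⟩ := hP p hp
        obtain ⟨o1, o2, o3⟩ := hOm p g1
        refine ⟨?_, ?_⟩
        · rw [card_insert_of_notMem o2]
          omega
        · intro c hc
          rcases mem_insert.1 hc with rfl | hc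
          · exact g1.pos
          · exact o3 c hc)
    rw [hprod] at h1
    have h2 : (Bad.filter (fun n => n % ps = c)).card ≤
        ((((Icc 1 N).filter (fun n => n % (W * ps) = r % (W * ps))).filter
          (fun n => ∀ p ∈ P, n % p ∉ insert 0 (Om p))).card) := by
      apply card_le_card
      intro n hn
      rw [mem_filter] at hn
      obtain ⟨hn1, hn2⟩ := hn
      obtain ⟨g1, g2, g3, g4⟩ := hBad n hn1
      rw [mem_filter, mem_filter]
      refine ⟨⟨g1, (hr n).1 ⟨g2, ?_⟩⟩, ?_⟩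
      · intro p hp; rw [mem_singleton] at hp; rw [hp]; exact hn2
      · intro p hp h
        rcases mem_insert.1 h with h | h
        · exact (g4 p hp).2 h
        · exact (g4 p hp).1 h
    have h2r : ((Bad.filter (fun n => n % ps = c)).card : ℝ) ≤
        (((((Icc 1 N).filter (fun n => n % (W * ps) = r % (W * ps))).filter
          (fun n => ∀ p ∈ P, n % p ∉ insert 0 (Om p))).card : ℕ) : ℝ) := by exact_mod_cast h2
    have h3 := (abs_le.1 h1).2
    push_cast at h3 h2r ⊢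
    obtain ⟨Q, hQ⟩ : ∃ Q, Q = (N : ℝ) / (W * ps) * ((∏ p ∈ P, (1 - 1 / (p : ℝ))) *
      ∏ p ∈ P, (1 - ((Om p).card : ℝ) / ((p : ℝ) - 1))) := ⟨_, rfl⟩
    rw [← hQ] at h3 ⊢
    have hQ0 : 0 ≤ Q := by
      rw [hQ, ← hprod]
      apply mul_nonneg (by positivity)
      apply prod_nonneg
      intro p hp
      obtain ⟨g1, _⟩ := hP p hp
      have hp0 : (0 : ℝ) < p := by exact_mod_cast g1.pos
      rw [card_insert_of_notMem (hOm p g1).2.1, sub_nonneg, div_le_one hp0]
      have := hGp p hp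
      have h5 : ((Om p).card : ℝ) ≤ κ := by exact_mod_cast (hOm p g1).1
      push_cast
      linarith
    have hb4 : (1 / 2 : ℝ) ^ b ≤ 1 / 4 := by
      calc (1 / 2 : ℝ) ^ b ≤ (1 / 2 : ℝ) ^ 2 := pow_le_pow_of_le_one (by norm_num) (by norm_num) hb2
        _ = 1 / 4 := by norm_num
    have h6 : (1 / 2 : ℝ) ^ b * Q ≤ 1 / 4 * Q := mul_le_mul_of_nonneg_right hb4 hQ0
    linarith
  have hsum : (Bad.card : ℝ) ≤ ∑ c ∈ Om ps, ((Bad.filter (fun n => n % ps = c)).card : ℝ) := by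
    have h1 : Bad ⊆ (Om ps).biUnion (fun c => Bad.filter (fun n => n % ps = c)) := by
      intro n hn
      rw [mem_biUnion]
      exact ⟨n % ps, (hBad n hn).2.2.1, mem_filter.2 ⟨hn, rfl⟩⟩
    have h2 := (card_le_card h1).trans card_biUnion_le
    exact_mod_cast h2
  obtain ⟨Q, hQ⟩ : ∃ Q, Q = 5 / 4 * ((N : ℝ) / (W * ps) * ((∏ p ∈ P, (1 - 1 / (p : ℝ))) *
      ∏ p ∈ P, (1 - ((Om p).card : ℝ) / ((p : ℝ) - 1)))) +
      ((J : ℝ) + 2) * (((2 ^ 2 ^ J) ^ (C * b) : ℕ) : ℝ) ^ (A' + 1) := ⟨_, rfl⟩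
  rw [← hQ] at hone ⊢
  rcases (Om ps).eq_empty_or_nonempty with he | hne
  · rw [he, sum_empty] at hsum
    have hQ0 : 0 ≤ Q := by
      rw [hQ, ← hprod]
      have : 0 ≤ ∏ p ∈ P, (1 - (((insert 0 (Om p)).card : ℕ) : ℝ) / p) := by
        apply prod_nonneg
        intro p hp
        obtain ⟨g1, _⟩ := hP p hp
        have hp0 : (0 : ℝ) < p := by exact_mod_cast g1.pos
        rw [card_insert_of_notMem (hOm p g1).2.1, sub_nonneg, div_le_one hp0]
        have := hGp p hp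
        have h5 : ((Om p).card : ℝ) ≤ κ := by exact_mod_cast (hOm p g1).1
        push_cast
        linarith
      positivity
    have : 0 ≤ (κ : ℝ) * Q := by positivity
    linarith
  · obtain ⟨c0, hc0⟩ := hne
    have hQ0 : 0 ≤ Q := (Nat.cast_nonneg _).trans (hone c0 hc0)
    have h1 := sum_le_card_nsmul _ _ _ hone
    rw [nsmul_eq_mul] at h1
    have h2 : ((Om ps).card : ℝ) ≤ κ := by exact_mod_cast (hOm ps hps).1
    have h3 : ((Om ps).card : ℝ) * Q ≤ κ * Q := mul_le_mul_of_nonneg_right h2 hQ0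
    linarith

end Pool.Agent.Y175.RC
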